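import Pool.Agent.U293.FX.NBS
import Pool.Agent.U722.FF.Hyp

set_option autoImplicit false
set_option linter.unusedSectionVars false

/-! Project FX: torsion-free subgroups of finite index, Baumslag-Solitar groups. -/

namespace Pool.Agent.U293.FX

open MvPolynomial Pool.Agent.U293.FX.NBS U722.FF

theorem fin_NS (p : ℕ) [hp : Fact p.Prime] : Finite (AZ ⧸ NS p 2) := by
  have hf := fin2 (p := p)
  have hF : Finite (RZ →ₐ[ℤ] (RZ ⧸ (II p) ^ 2)) := by
    refine Finite.of_injective (fun (φ : RZ →ₐ[ℤ] (RZ ⧸ (II p) ^ 2)) (i : Fin 2) => φ (X i)) ?_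
    intro φ ψ h
    exact MvPolynomial.algHom_ext (fun i => congrFun h i)
  refine Finite.of_injective (fun q : AZ ⧸ NS p 2 =>
    (Ideal.Quotient.mkₐ ℤ ((II p) ^ 2)).comp (((q.out)⁻¹ : AZ) : RZ →ₐ[ℤ] RZ)) ?_
  intro a b h
  have h1 : (a.out)⁻¹ * b.out ∈ NS p 2 := by
    intro r
    have h2 := congrArg (fun φ : RZ →ₐ[ℤ] (RZ ⧸ (II p) ^ 2) => φ (b.out r)) h
    have h3 : Ideal.Quotient.mk ((II p) ^ 2) ((a.out)⁻¹ (b.out r)) =
      Ideal.Quotient.mk ((II p) ^ 2) ((b.out)⁻¹ (b.out r)) := h2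
    have h4 : (b.out)⁻¹ (b.out r) = r := (b.out).symm_apply_apply r
    rw [h4] at h3
    exact Ideal.Quotient.eq.1 h3
  rw [← Quotient.out_eq' a, ← Quotient.out_eq' b]
  exact (QuotientGroup.eq (s := NS p 2)).2 h1

/-- the torsion-free subgroup -/
noncomputable def TFG : Subgroup AZ := NS 2 2 ⊓ NS 3 2

theorem TFG_index : TFG.index ≠ 0 := by
  have i2 : Fact (Nat.Prime 2) := ⟨Nat.prime_two⟩
  have i3 : Fact (Nat.Prime 3) := ⟨Nat.prime_three⟩
  have h2 := fin_NS 2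
  have h3 := fin_NS 3
  have f2 : (NS 2 2).FiniteIndex := Subgroup.finiteIndex_of_finite_quotient
  have f3 : (NS 3 2).FiniteIndex := Subgroup.finiteIndex_of_finite_quotient
  have f : (NS 2 2 ⊓ NS 3 2).FiniteIndex := inferInstance
  exact f.index_ne_zero

theorem tf_aux (p : ℕ) [hp : Fact p.Prime] {w : AZ} (hw : w ∈ NS p 2) {l : ℕ} (hl : ¬ p ∣ l)
    (h : w ^ l = 1) : w = 1 := by
  refine rel1 (p := p) (t := 1) (w := w) (a := l) (b := 0) (one_mem _) hw ?_ ?_
  · intro h1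
    exact hl (by exact_mod_cast h1)
  · rw [zpow_natCast, h, mul_zero, zpow_zero]
    group

theorem TFG_notor : ∀ g ∈ TFG, ∀ k : ℕ, 0 < k → g ^ k = 1 → g = 1 := by
  have i2 : Fact (Nat.Prime 2) := ⟨Nat.prime_two⟩
  have i3 : Fact (Nat.Prime 3) := ⟨Nat.prime_three⟩
  intro g hg k
  induction k using Nat.strong_induction_on generalizing g with
  | _ k ih =>
    intro hk h
    by_cases h2 : 2 ∣ k
    · by_cases h4 : k = 2
      · subst h4
        exact tf_aux 3 hg.2 (l := 2) (by norm_num) h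
      · obtain ⟨j, rfl⟩ := h2
        have h5 : g ^ 2 = 1 := by
          refine ih j (by omega) (g ^ 2) (pow_mem hg 2) (by omega) ?_
          rw [← pow_mul]
          exact h
        exact tf_aux 3 hg.2 (l := 2) (by norm_num) h5
    · exact tf_aux 2 hg.1 (l := k) h2 h

/-- torsion-free subgroups of finite index -/
theorem VIRA (G : Type) [Group G]
    (ρ : G →* (MvPolynomial (Fin 2) ℤ ≃ₐ[ℤ] MvPolynomial (Fin 2) ℤ)) (hρ : Function.Injective ρ) :
    ∃ N : Subgroup G, N.index ≠ 0 ∧ NoTor N := by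
  refine ⟨TFG.comap ρ, ?_, ?_⟩
  · have f : TFG.FiniteIndex := ⟨TFG_index⟩
    rw [Subgroup.index_comap]
    have f2 : (TFG.subgroupOf ρ.range).FiniteIndex := inferInstance
    exact f2.index_ne_zero
  · rintro ⟨g, hg⟩ k hk h
    have h1 : g ^ k = 1 := congrArg Subtype.val h
    apply Subtype.ext
    apply hρ
    rw [Subgroup.coe_one, map_one]
    exact TFG_notor (ρ g) hg k hk (by rw [← map_pow, h1, map_one])

/-- no Baumslag-Solitar subgroups -/
theorem NoBSA (G : Type) [Group G]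
    (ρ : G →* (MvPolynomial (Fin 2) ℤ ≃ₐ[ℤ] MvPolynomial (Fin 2) ℤ)) (hρ : Function.Injective ρ)
    (hz : ¬ HasZ2 G) (p q : ℤ) (hp : p ≠ 0) (hq : q ≠ 0)
    (f : BS p q →* G) : ¬ Function.Injective f := by
  intro hf
  have hinj : Function.Injective (ρ.comp f) := hρ.comp hf
  have h2 : ∀ k : ℕ, 0 < k → (ρ.comp f (ba p q)) ^ k ≠ 1 := by
    intro k hk h3
    have h5 : (ba p q) ^ k = 1 := by
      apply hinj
      rw [map_one, ← h3]
      exact map_pow (ρ.comp f) (ba p q) k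
    exact BSI p q hp hq k hk h5
  have h4 : (ρ.comp f) (bt p q) * (ρ.comp f) (ba p q) ^ p * ((ρ.comp f) (bt p q))⁻¹
      = (ρ.comp f) (ba p q) ^ q := by
    rw [← map_zpow, ← map_zpow, ← map_inv, ← map_mul, ← map_mul, brel]
  exact hz (HasZ2_le f hf (BSZ p q hp (rel h2 hp hq h4)))

end Pool.Agent.U293.FX
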