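import Pool.Agent.U293.FXP.AF

set_option autoImplicit false
set_option linter.unusedSectionVars false

/-! Project FX: the data of the package AF (same proof, by helper643). -/

namespace Pool.Agent.U293.FX

open U722.FF MvPolynomial Pool.Agent.U293.PA Pool.Agent.U293.FC Pool.Agent.U293.FXP.AF

/-- the homomorphism to `GL_2(ℤ)` -/
theorem af_data (G : Type) [Group G] (ρ : G →* Au ℚ) (x : Au ℚ) (hinj : Function.Injective ρ)
    (hnt : NoTor G) (hSG : ∀ g, ρ g ∈ SG ℤ x) :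
    ∃ φ : G →* Matrix.GeneralLinearGroup (Fin 2) ℤ,
      (∃ (n : ℕ) (v : ↥φ.ker →* Multiplicative (Fin n → ℤ)), Function.Injective v) ∧
      ∀ (g : G) (n : ℕ), 0 < n → φ g ^ n = 1 → (φ g).1.det = 1 → φ g = 1 := by
  obtain ⟨b⟩ := basis_LL (D := ℤ) (K := ℚ) x
  obtain ⟨R, hR, hR1⟩ := exR hSG
  obtain ⟨m, -⟩ : ∃ m : Module.End ℤ (LL ℤ x) ≃+* Matrix (Fin 2) (Fin 2) ℤ, True :=
    ⟨(LinearMap.toMatrixAlgEquiv b).toRingEquiv, trivial⟩
  obtain ⟨φ, hval⟩ := absasm m R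
  have hφ1 : ∀ g, φ g = 1 ↔ R g = 1 := by
    intro g
    constructor
    · intro h
      have h2 : m (R g) = 1 := by
        rw [← hval, h]
        rfl
      exact (map_eq_one_iff m m.injective).1 h2
    · intro h
      apply Units.ext
      rw [hval, h, map_one]
      rfl
  obtain ⟨v, hv⟩ := kerv hinj hSG φ fun h h0 => hR1 h ((hφ1 h).1 h0)
  refine ⟨φ, ⟨2, v, hv⟩, ?_⟩
  intro g n hn hpow hdet
  rw [hφ1]
  have hLn : R g ^ n = 1 := by
    rw [← map_pow, ← hφ1, map_pow]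
    exact hpow
  -- the characteristic polynomial
  obtain ⟨τ, hτ⟩ : ∃ τ : ℤ, R g * R g = τ • R g - 1 := by
    obtain ⟨τ, h1⟩ := mat_sq (φ g).1 hdet
    rw [hval] at h1
    refine ⟨τ, m.injective ?_⟩
    rw [map_mul, map_sub, map_zsmul, map_one]
    exact h1
  have htf : ∀ (c : ℤ) (U : Module.End ℤ (LL ℤ x)), c ≠ 0 → c • U = 0 → U = 0 := by
    intro c U hc h
    apply LinearMap.ext
    intro u
    apply Subtype.ext
    have h1 : c • ((U u : LL ℤ x) : Fin 2 → ℚ) = 0 := by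
      have h3 := congrArg (fun f : Module.End ℤ (LL ℤ x) => ((f u : LL ℤ x) : Fin 2 → ℚ)) h
      exact h3
    exact (smul_eq_zero.1 h1).resolve_left hc
  by_cases h2 : τ = 2
  · rw [h2] at hτ
    exact uni htf (R g) hτ hn hLn
  · have hgn : g ^ n = 1 := by
      refine noeig hinj hSG (hR1 _ (by rw [map_pow]; exact hLn)) h2 ?_
      intro u hu
      have h3 := congrArg (fun f : Module.End ℤ (LL ℤ x) =>
        ((f ⟨u, hu⟩ : LL ℤ x) : Fin 2 → ℚ)) hτ
      have h4 : ((R g (R g ⟨u, hu⟩) : LL ℤ x) : Fin 2 → ℚ) =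
        τ • ((R g ⟨u, hu⟩ : LL ℤ x) : Fin 2 → ℚ) - u := h3
      rw [hR, hR] at h4
      exact h4
    rw [hnt g n hn hgn, map_one]


end Pool.Agent.U293.FX
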