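import Pool.Agent.U293.FX.Stm

set_option autoImplicit false
set_option linter.unusedSectionVars false

/-! Project FX: extension of scalars from `ℤ` to `ℚ`. -/

namespace Pool.Agent.U293.FX

open U722.FF MvPolynomial Pool.Agent.U293.PA Pool.Agent.U293.FC Pool.Agent.U293.EP

/-- extension of scalars from `ℤ` to `ℚ` -/
theorem exists_emb : ∃ f : (MvPolynomial (Fin 2) ℤ ≃ₐ[ℤ] MvPolynomial (Fin 2) ℤ) →* Au ℚ,
    Function.Injective f ∧ ∀ g, f g ∈ DR (Dh ℤ ℚ) := by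
  have hinj : Function.Injective (algebraMap ℤ ℚ) := IsFractionRing.injective _ _
  have hSR : ∀ P : MvPolynomial (Fin 2) ℤ, map (algebraMap ℤ ℚ) P ∈ SR (Dh ℤ ℚ) := by
    intro P
    rw [mem_SR]
    intro m
    rw [coeff_map]
    exact ⟨_, rfl⟩
  refine ⟨bc (σ := Fin 2) (algebraMap ℤ ℚ), bc_injective hinj, fun g => ⟨fun i => ?_, fun i => ?_⟩⟩
  · change bc (algebraMap ℤ ℚ) g (X i) ∈ _
    rw [bc_X]
    exact hSR _
  · have h1 : (bc (algebraMap ℤ ℚ) g)⁻¹ = bc (algebraMap ℤ ℚ) g⁻¹ := (map_inv _ _).symm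
    change (bc (algebraMap ℤ ℚ) g)⁻¹ (X i) ∈ _
    rw [h1, bc_X]
    exact hSR _

theorem of_main (h : S_MAIN) (G : Type) [Group G]
    (ρ : G →* (MvPolynomial (Fin 2) ℤ ≃ₐ[ℤ] MvPolynomial (Fin 2) ℤ)) (hρ : Function.Injective ρ)
    (hnt : NoTor G) (hfg : Group.FG G) : TF G := by
  obtain ⟨f, hf, hDR⟩ := exists_emb
  exact h G (f.comp ρ) (hf.comp hρ) hnt hfg (fun g => hDR (ρ g))

end Pool.Agent.U293.FX
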