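import Pool.Agent.U293.FX.Main
import Pool.Agent.U293.FX.Emb
import Pool.Agent.U293.FXP.VA
import Pool.Agent.U293.FXP.DI
import Pool.Agent.U293.FXP.TRI
import Pool.Agent.U293.FXP.TRF
import Pool.Agent.U293.FXP.AF
import Pool.Agent.U333.FX.FA

set_option autoImplicit false

/-! Project FX: final theorem. -/

namespace Pool.Agent.U293.FX

open U722.FF

theorem VA : S_VA := Pool.Agent.U293.FXP.VA.t_VA
theorem DI : S_DI := Pool.Agent.U293.FXP.DI.t_DI VA
theorem TRI : S_TRI := Pool.Agent.U293.FXP.TRI.t_TRI DI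
theorem TRF : S_TRF := Pool.Agent.U293.FXP.TRF.t_TRF
theorem FA : S_FA := Pool.Agent.U333.FX.t_FA VA
theorem AF : S_AF := Pool.Agent.U293.FXP.AF.t_AF FA
theorem MAIN : S_MAIN := t_MAIN TRI TRF AF

/-- finitely generated torsion-free groups of automorphisms of `ℤ[x, y]` -/
theorem final (G : Type) [Group G]
    (ρ : G →* (MvPolynomial (Fin 2) ℤ ≃ₐ[ℤ] MvPolynomial (Fin 2) ℤ)) (hρ : Function.Injective ρ)
    (hnt : NoTor G) (hfg : Group.FG G) : TF G := of_main MAIN G ρ hρ hnt hfg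

end Pool.Agent.U293.FX
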