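import Pool.Agent.U293.FX.Stm

set_option autoImplicit false
set_option linter.unusedSectionVars false

/-! Project FX: the factors of integral triangular automorphisms. -/

namespace Pool.Agent.U293.FX

open U722.FF MvPolynomial Pool.Agent.U293.PA Pool.Agent.U293.FC

theorem conj_ap1 (x h : Au ℚ) (P : Rg ℚ) : x ((x⁻¹ * h * x) P) = h (x P) := by
  rw [AlgEquiv.mul_apply, AlgEquiv.mul_apply, ap_inv]

/-- groups of integral polynomials of bounded support are finitely generated -/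
theorem fg_supp (M : Submodule ℤ (Rg ℚ)) (S : Finset (Fin 2 →₀ ℕ))
    (h1 : ∀ P ∈ M, P ∈ SR (Dh ℤ ℚ)) (h2 : ∀ P ∈ M, ∀ m ∉ S, P.coeff m = 0) : M.FG := by
  classical
  let N0 : Submodule ℤ ℚ := LinearMap.range (Algebra.linearMap ℤ ℚ)
  have hN0 : IsNoetherian ℤ N0 := by
    exact isNoetherian_of_surjective (Algebra.linearMap ℤ ℚ).rangeRestrict
      (LinearMap.range_eq_top.2 (Algebra.linearMap ℤ ℚ).surjective_rangeRestrict)
  let θ : (Fin 2 →₀ ℕ) → Rg ℚ →ₗ[ℤ] ℚ := fun s => (lcoeff ℚ s).restrictScalars ℤ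
  let Θ : M →ₗ[ℤ] (S → N0) := LinearMap.pi fun s =>
    ((θ s.1).comp M.subtype).codRestrict N0 (by
      rintro ⟨P, hP⟩
      obtain ⟨r, hr⟩ := mem_SR.1 (h1 P hP) s.1
      exact ⟨r, hr⟩)
  have hΘ : Function.Injective Θ := by
    rw [injective_iff_map_eq_zero]
    rintro ⟨P, hP⟩ h0
    apply Subtype.ext
    ext m
    by_cases hm : m ∈ S
    · have h3 := congrArg (fun f : S → N0 => ((f ⟨m, hm⟩ : N0) : ℚ)) h0
      exact h3
    · exact h2 P hP m hm
  have : Module.Finite ℤ M := Module.Finite.of_injective Θ hΘ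
  exact Module.Finite.iff_fg.1 this

/-- eigenvalues of lattices in `ℚ` are integers -/
theorem int_of_lat (L : Submodule ℤ ℚ) (hL : L ≠ ⊥) (hfg : L.FG) (b : ℚ)
    (hb : ∀ q ∈ L, b * q ∈ L) : ∃ z : ℤ, (z : ℚ) = b := by
  have h1 : IsIntegral ℤ b := isIntegral_of_smul_mem_submodule L hL hfg b hb
  obtain ⟨z, hz⟩ := IsIntegrallyClosed.isIntegral_iff.1 h1
  exact ⟨z, hz⟩

theorem pm_one {a b : ℚ} (ha : ∃ z : ℤ, (z : ℚ) = a) (hb : ∃ z : ℤ, (z : ℚ) = b)
    (hab : a * b = 1) : a = 1 ∨ a = -1 := by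
  obtain ⟨z, rfl⟩ := ha
  obtain ⟨w, rfl⟩ := hb
  have h1 : z * w = 1 := by exact_mod_cast hab
  rcases Int.eq_one_or_neg_one_of_mul_eq_one h1 with h2 | h2
  · left
    rw [h2]
    norm_num
  · right
    rw [h2]
    norm_num

theorem coeff0 (q : ℚ) (r : Polynomial ℚ) :
    (C q * X 0 + Polynomial.aeval (X 1) r : Rg ℚ).coeff (Finsupp.single 0 1) = q := by
  have h1 : (Polynomial.aeval (X 1) r : Rg ℚ).coeff (Finsupp.single 0 1) = 0 := by
    rw [Polynomial.aeval_eq_sum_range, coeff_sum]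
    refine Finset.sum_eq_zero fun i _ => ?_
    rw [coeff_smul]
    have h2 : ((X 1 : Rg ℚ) ^ i).coeff (Finsupp.single 0 1) = 0 := by
      rw [coeff_X_pow, if_neg]
      intro h
      have := congrArg (fun z => z 0) h
      simp at this
    rw [h2, smul_zero]
  rw [coeff_add, h1, coeff_C_mul, coeff_X, add_zero, if_pos rfl, mul_one]

theorem coeff1 (q e : ℚ) : (C q * X 1 + C e : Rg ℚ).coeff (Finsupp.single 1 1) = q := by
  have h0 : (0 : Fin 2 →₀ ℕ) ≠ Finsupp.single 1 1 := by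
    intro h
    have := congrArg (fun z => z 1) h
    simp at this
  rw [coeff_add, coeff_C, if_neg h0, coeff_C_mul, coeff_X, add_zero, if_pos rfl, mul_one]

theorem exists_den (P : Rg ℚ) : ∃ N : ℤ, N ≠ 0 ∧ C (algebraMap ℤ ℚ N) * P ∈ SR (Dh ℤ ℚ) := by
  classical
  obtain ⟨⟨N, hN⟩, hb⟩ := IsLocalization.exist_integer_multiples_of_finset (nonZeroDivisors ℤ)
    (P.coeffs)
  refine ⟨N, nonZeroDivisors.ne_zero hN, ?_⟩
  rw [mem_SR]
  intro m
  rw [coeff_C_mul]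
  by_cases hm : P.coeff m = 0
  · rw [hm, mul_zero]
    exact zero_mem _
  · obtain ⟨r, hr⟩ := hb _ (MvPolynomial.mem_coeffs_iff.2 ⟨m, mem_support_iff.2 hm, rfl⟩)
    refine ⟨r, ?_⟩
    rw [hr, Algebra.smul_def]

section

variable (x : Au ℚ) (d : ℕ)

/-- the integral polynomials in the span of `1, Y` -/
noncomputable def M1 : Submodule ℤ (Rg ℚ) where
  carrier := {P | P ∈ SR (Dh ℤ ℚ) ∧ ∃ q e : ℚ, P = C q * x (X 1) + C e}
  add_mem' := by
    rintro _ _ ⟨h1, q, e, rfl⟩ ⟨h2, q', e', rfl⟩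
    refine ⟨add_mem h1 h2, q + q', e + e', ?_⟩
    rw [C_add, C_add]
    ring
  zero_mem' := ⟨zero_mem _, 0, 0, by simp⟩
  smul_mem' := by
    rintro z _ ⟨h1, q, e, rfl⟩
    refine ⟨zsmul_mem h1 z, z * q, z * e, ?_⟩
    rw [zsmul_eq_mul, C_mul, C_mul, map_intCast]
    ring

/-- the integral polynomials in the span of `U, 1, Y, ..., Y ^ d` -/
noncomputable def M2 : Submodule ℤ (Rg ℚ) where
  carrier := {P | P ∈ SR (Dh ℤ ℚ) ∧ ∃ (q : ℚ) (r : Polynomial ℚ), r.natDegree ≤ d ∧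
    P = C q * x (X 0) + Polynomial.aeval (x (X 1)) r}
  add_mem' := by
    rintro _ _ ⟨h1, q, r, hr, rfl⟩ ⟨h2, q', r', hr', rfl⟩
    refine ⟨add_mem h1 h2, q + q', r + r', (Polynomial.natDegree_add_le _ _).trans (max_le hr hr'), ?_⟩
    rw [C_add, map_add]
    ring
  zero_mem' := ⟨zero_mem _, 0, 0, by simp, by simp⟩
  smul_mem' := by
    rintro z _ ⟨h1, q, r, hr, rfl⟩
    refine ⟨zsmul_mem h1 z, z * q, Polynomial.C (z : ℚ) * r,
      (Polynomial.natDegree_C_mul_le _ _).trans hr, ?_⟩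
    rw [zsmul_eq_mul, C_mul, map_mul, Polynomial.aeval_C, MvPolynomial.algebraMap_eq, map_intCast]
    ring

/-- the coefficient with respect to the coordinates of `x` -/
noncomputable def φφ (s : Fin 2 →₀ ℕ) : Rg ℚ →ₗ[ℤ] ℚ :=
  ((lcoeff ℚ s).comp (x⁻¹ : Au ℚ).toLinearMap).restrictScalars ℤ

theorem φφ_apply (s : Fin 2 →₀ ℕ) (P : Rg ℚ) : φφ x s P = ((x⁻¹ : Au ℚ) P).coeff s := rfl

theorem φφ1 (q e : ℚ) : φφ x (Finsupp.single 1 1) (C q * x (X 1) + C e) = q := by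
  rw [φφ_apply, map_add, map_mul, gC, gC, inv_ap, coeff1]

theorem φφ2 (q : ℚ) (r : Polynomial ℚ) :
    φφ x (Finsupp.single 0 1) (C q * x (X 0) + Polynomial.aeval (x (X 1)) r) = q := by
  rw [φφ_apply, map_add, map_mul, gC, inv_ap, g_aeval, inv_ap, coeff0]

theorem fg_M1 : (M1 x).FG := by
  classical
  refine fg_supp (M1 x) ({0} ∪ (x (X 1)).support) (fun P hP => hP.1) ?_
  rintro _ ⟨_, q, e, rfl⟩ m hm
  rw [Finset.mem_union, not_or, Finset.mem_singleton, notMem_support_iff] at hm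
  rw [coeff_add, coeff_C_mul, hm.2, mul_zero, coeff_C, if_neg (Ne.symm hm.1), add_zero]

theorem fg_M2 : (M2 x d).FG := by
  classical
  refine fg_supp (M2 x d) ((x (X 0)).support ∪ (Finset.range (d + 1)).biUnion fun i =>
    ((x (X 1)) ^ i).support) (fun P hP => hP.1) ?_
  rintro _ ⟨_, q, r, hr, rfl⟩ m hm
  rw [Finset.mem_union, not_or, notMem_support_iff] at hm
  rw [coeff_add, coeff_C_mul, hm.1, mul_zero, zero_add,
    Polynomial.aeval_eq_sum_range' (n := d + 1) (by omega), coeff_sum]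
  refine Finset.sum_eq_zero fun i hi => ?_
  rw [coeff_smul]
  have h5 : ((x (X 1)) ^ i).coeff m = 0 := by
    by_contra h6
    exact hm.2 (Finset.mem_biUnion.2 ⟨i, hi, mem_support_iff.2 h6⟩)
  rw [h5, smul_zero]

theorem ne_M1 : (M1 x).map (φφ x (Finsupp.single 1 1)) ≠ ⊥ := by
  obtain ⟨N, hN, h1⟩ := exists_den (x (X 1))
  rw [Submodule.ne_bot_iff]
  refine ⟨algebraMap ℤ ℚ N, ⟨C (algebraMap ℤ ℚ N) * x (X 1) + C 0, ⟨?_, _, _, rfl⟩, φφ1 x _ _⟩, ?_⟩
  · rw [C_0, add_zero]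
    exact h1
  · rw [Ne, FaithfulSMul.algebraMap_eq_zero_iff]
    exact hN

theorem ne_M2 : (M2 x d).map (φφ x (Finsupp.single 0 1)) ≠ ⊥ := by
  obtain ⟨N, hN, h1⟩ := exists_den (x (X 0))
  rw [Submodule.ne_bot_iff]
  refine ⟨algebraMap ℤ ℚ N, ⟨C (algebraMap ℤ ℚ N) * x (X 0) + Polynomial.aeval (x (X 1)) 0,
    ⟨?_, _, _, by simp, rfl⟩, φφ2 x _ _⟩, ?_⟩
  · rw [map_zero, add_zero]
    exact h1
  · rw [Ne, FaithfulSMul.algebraMap_eq_zero_iff]
    exact hN

variable {x d}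

theorem int_ab {h : Au ℚ} (hh : h ∈ DR (Dh ℤ ℚ)) {a b c : ℚ} {p : Polynomial ℚ}
    (hp : p.natDegree ≤ d) (h0 : (x⁻¹ * h * x) (X 0) = C a * X 0 + Polynomial.aeval (X 1) p)
    (h1 : (x⁻¹ * h * x) (X 1) = C b * X 1 + C c) :
    (∃ z : ℤ, (z : ℚ) = a) ∧ ∃ z : ℤ, (z : ℚ) = b := by
  have e0 : h (x (X 0)) = C a * x (X 0) + Polynomial.aeval (x (X 1)) p := by
    rw [← conj_ap1, h0, map_add, map_mul, gC, g_aeval]
  have e1 : h (x (X 1)) = C b * x (X 1) + C c := by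
    rw [← conj_ap1, h1, map_add, map_mul, gC, gC]
  constructor
  · refine int_of_lat _ (ne_M2 x d) ((fg_M2 x d).map _) a ?_
    rintro _ ⟨_, ⟨h2, q, r, hr, rfl⟩, rfl⟩
    rw [φφ2]
    have h3 : h (C q * x (X 0) + Polynomial.aeval (x (X 1)) r) = C (a * q) * x (X 0) +
        Polynomial.aeval (x (X 1)) (Polynomial.C q * p +
          r.comp (Polynomial.C b * Polynomial.X + Polynomial.C c)) := by
      rw [map_add, map_mul, gC, e0, g_aeval, e1, map_add (Polynomial.aeval (x (X 1))),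
        map_mul (Polynomial.aeval (x (X 1))), Polynomial.aeval_C,
        Polynomial.aeval_comp, MvPolynomial.algebraMap_eq, C_mul]
      have h4 : Polynomial.aeval (x (X 1)) (Polynomial.C b * Polynomial.X + Polynomial.C c) =
          C b * x (X 1) + C c := by
        simp [MvPolynomial.algebraMap_eq]
      rw [h4]
      ring
    refine ⟨h (C q * x (X 0) + Polynomial.aeval (x (X 1)) r), ⟨map_SR hh.1 h2, _, _, ?_, h3⟩, ?_⟩
    · refine (Polynomial.natDegree_add_le _ _).trans (max_le ?_ ?_)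
      · exact (Polynomial.natDegree_C_mul_le _ _).trans hp
      · refine (Polynomial.natDegree_comp_le).trans ?_
        have h5 : (Polynomial.C b * Polynomial.X + Polynomial.C c).natDegree ≤ 1 :=
          Polynomial.natDegree_linear_le
        calc r.natDegree * (Polynomial.C b * Polynomial.X + Polynomial.C c).natDegree
            ≤ r.natDegree * 1 := Nat.mul_le_mul_left _ h5
          _ ≤ d := by omega
    · rw [h3, φφ2]
  · refine int_of_lat _ (ne_M1 x) ((fg_M1 x).map _) b ?_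
    rintro _ ⟨_, ⟨h2, q, e, rfl⟩, rfl⟩
    rw [φφ1]
    have h3 : h (C q * x (X 1) + C e) = C (b * q) * x (X 1) + C (q * c + e) := by
      rw [map_add, map_mul, gC, gC, e1]
      simp only [C_mul, C_add]
      ring
    refine ⟨h (C q * x (X 1) + C e), ⟨map_SR hh.1 h2, _, _, h3⟩, ?_⟩
    rw [h3, φφ1]

/-- the factors are `1` or `-1` -/
theorem sgn {h : Au ℚ} (hh : h ∈ DR (Dh ℤ ℚ)) {a b c a' b' c' : ℚ} {p p' : Polynomial ℚ}
    (hp : p.natDegree ≤ d) (h0 : (x⁻¹ * h * x) (X 0) = C a * X 0 + Polynomial.aeval (X 1) p)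
    (h1 : (x⁻¹ * h * x) (X 1) = C b * X 1 + C c)
    (hp' : p'.natDegree ≤ d)
    (h0' : (x⁻¹ * h⁻¹ * x) (X 0) = C a' * X 0 + Polynomial.aeval (X 1) p')
    (h1' : (x⁻¹ * h⁻¹ * x) (X 1) = C b' * X 1 + C c') :
    (a = 1 ∨ a = -1) ∧ (b = 1 ∨ b = -1) := by
  obtain ⟨h2, h3⟩ := int_ab hh hp h0 h1
  obtain ⟨h4, h5⟩ := int_ab (inv_mem hh) hp' h0' h1'
  have h6 : (x⁻¹ * h⁻¹ * x) * (x⁻¹ * h * x) = 1 := by group
  have h7 : a' * a = 1 := by
    have h8 : ((x⁻¹ * h⁻¹ * x) * (x⁻¹ * h * x)) (X 0) = (X 0 : Rg ℚ) := by rw [h6]; rfl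
    rw [AlgEquiv.mul_apply, h0, map_add, map_mul, gC, h0', g_aeval, h1', aeval_lin] at h8
    have h9 : (C (a' * a) * X 0 + Polynomial.aeval (X 1) (Polynomial.C a * p' +
        p.comp (Polynomial.C b' * Polynomial.X + Polynomial.C c')) : Rg ℚ) =
        C 1 * X 0 + Polynomial.aeval (X 1 : Rg ℚ) (0 : Polynomial ℚ) := by
      rw [map_add (Polynomial.aeval (X 1 : Rg ℚ)), map_mul (Polynomial.aeval (X 1 : Rg ℚ)),
        Polynomial.aeval_C, MvPolynomial.algebraMap_eq, map_zero, add_zero, C_1, one_mul, C_mul]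
      linear_combination h8
    have h10 := congrArg (fun P : Rg ℚ => P.coeff (Finsupp.single 0 1)) h9
    simp only [coeff0] at h10
    exact h10
  have h8 : b' * b = 1 := by
    have h8 : ((x⁻¹ * h⁻¹ * x) * (x⁻¹ * h * x)) (X 1) = (X 1 : Rg ℚ) := by rw [h6]; rfl
    rw [AlgEquiv.mul_apply, h1, map_add, map_mul, gC, gC, h1'] at h8
    have h9 : (C (b' * b) * X 1 + C (b * c' + c) : Rg ℚ) = C 1 * X 1 + C 0 := by
      simp only [C_1, C_0, add_zero, one_mul, C_mul, C_add]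
      linear_combination h8
    have h10 := congrArg (fun P : Rg ℚ => P.coeff (Finsupp.single 1 1)) h9
    simp only [coeff1] at h10
    exact h10
  exact ⟨pm_one h2 h4 (by rw [mul_comm]; exact h7), pm_one h3 h5 (by rw [mul_comm]; exact h8)⟩

end

end Pool.Agent.U293.FX
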