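import Pool.Agent.U293.FX.Stm

set_option autoImplicit false
set_option linter.unusedSectionVars false

/-! Project FX: integral elementary automorphisms of bounded degree. -/

namespace Pool.Agent.U293.FX

open U722.FF MvPolynomial Pool.Agent.U293.PA Pool.Agent.U293.FC

theorem conj_ap (x h : Au ℚ) (P : Rg ℚ) : x ((x⁻¹ * h * x) P) = h (x P) := by
  rw [AlgEquiv.mul_apply, AlgEquiv.mul_apply, ap_inv]

/-- the coefficients of `h (x (X 0)) - x (X 0)` -/
theorem ker3 (G : Type) [Group G] (ρ : G →* Au ℚ) (x : Au ℚ) (d : ℕ) (hinj : Function.Injective ρ)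
    (hDR : ∀ g, ρ g ∈ DR (Dh ℤ ℚ))
    (h : ∀ g : G, ∃ p : Polynomial ℚ, p.natDegree ≤ d ∧
      (x⁻¹ * ρ g * x) (X 0) = X 0 + Polynomial.aeval (X 1) p ∧ (x⁻¹ * ρ g * x) (X 1) = X 1) :
    (∀ a b : G, a * b = b * a) ∧ Group.FG G := by
  classical
  choose p hp h0 h1 using h
  have e0 : ∀ g, ρ g (x (X 0)) = x (X 0) + Polynomial.aeval (x (X 1)) (p g) := by
    intro g
    rw [← conj_ap, h0, map_add, g_aeval]
  have e1 : ∀ g, ρ g (x (X 1)) = x (X 1) := by
    intro g
    rw [← conj_ap, h1]
  have hext : ∀ a b : G, ρ a (x (X 0)) = ρ b (x (X 0)) → a = b := by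
    intro a b hab
    apply hinj
    have h2 : ρ a * x = ρ b * x := ext_of (by
      rw [AlgEquiv.mul_apply, AlgEquiv.mul_apply, hab]) (by
      rw [AlgEquiv.mul_apply, AlgEquiv.mul_apply, e1, e1])
    exact mul_right_cancel h2
  have emul : ∀ a b : G, ρ (a * b) (x (X 0)) = x (X 0) + Polynomial.aeval (x (X 1)) (p a) +
      Polynomial.aeval (x (X 1)) (p b) := by
    intro a b
    rw [map_mul, AlgEquiv.mul_apply, e0, map_add, e0, g_aeval, e1]
  have hcomm : ∀ a b : G, a * b = b * a := by
    intro a b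
    apply hext
    rw [emul, emul]
    ring
  refine ⟨hcomm, ?_⟩
  -- a common denominator
  obtain ⟨⟨N, hN⟩, hb⟩ := IsLocalization.exist_integer_multiples_of_finset (nonZeroDivisors ℤ)
    ((x (X 0)).coeffs)
  have hN0 : (N : ℤ) ≠ 0 := nonZeroDivisors.ne_zero hN
  have hint : C (algebraMap ℤ ℚ N) * x (X 0) ∈ SR (Dh ℤ ℚ) := by
    rw [mem_SR]
    intro m
    rw [coeff_C_mul]
    by_cases hm : (x (X 0)).coeff m = 0
    · rw [hm, mul_zero]
      exact zero_mem _
    · obtain ⟨r, hr⟩ := hb _ (MvPolynomial.mem_coeffs_iff.2 ⟨m, mem_support_iff.2 hm, rfl⟩)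
      refine ⟨r, ?_⟩
      rw [hr, Algebra.smul_def]
  have hint2 : ∀ g, C (algebraMap ℤ ℚ N) * Polynomial.aeval (x (X 1)) (p g) ∈ SR (Dh ℤ ℚ) := by
    intro g
    have h3 : ρ g (C (algebraMap ℤ ℚ N) * x (X 0)) ∈ SR (Dh ℤ ℚ) := map_SR (hDR g).1 hint
    rw [map_mul, gC, e0, mul_add] at h3
    have h4 := sub_mem h3 hint
    rwa [add_sub_cancel_left] at h4
  -- the support
  let S : Finset (Fin 2 →₀ ℕ) := (Finset.range (d + 1)).biUnion fun i => ((x (X 1)) ^ i).support
  have hS : ∀ g (m : Fin 2 →₀ ℕ), m ∉ S → (Polynomial.aeval (x (X 1)) (p g)).coeff m = 0 := by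
    intro g m hm
    rw [Polynomial.aeval_eq_sum_range' (n := d + 1) (by have := hp g; omega), coeff_sum]
    refine Finset.sum_eq_zero fun i hi => ?_
    rw [coeff_smul]
    have h5 : ((x (X 1)) ^ i).coeff m = 0 := by
      by_contra h6
      exact hm (Finset.mem_biUnion.2 ⟨i, hi, mem_support_iff.2 h6⟩)
    rw [h5, smul_zero]
  have hz : ∀ g (m : Fin 2 →₀ ℕ), ∃ z : ℤ, algebraMap ℤ ℚ z =
      algebraMap ℤ ℚ N * (Polynomial.aeval (x (X 1)) (p g)).coeff m := by
    intro g m
    have h5 := mem_SR.1 (hint2 g) m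
    rw [coeff_C_mul] at h5
    exact h5
  choose z hz using hz
  have hzmul : ∀ a b m, z (a * b) m = z a m + z b m := by
    intro a b m
    have h6 : Polynomial.aeval (x (X 1)) (p (a * b)) = Polynomial.aeval (x (X 1)) (p a) +
        Polynomial.aeval (x (X 1)) (p b) := by
      have h7 := e0 (a * b)
      rw [emul, add_assoc] at h7
      exact (add_left_cancel h7).symm
    have h8 : algebraMap ℤ ℚ (z (a * b) m) = algebraMap ℤ ℚ (z a m + z b m) := by
      rw [map_add, hz, hz, hz, h6, coeff_add, mul_add]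
    exact (IsFractionRing.injective ℤ ℚ) h8
  let f : G →* Multiplicative (S → ℤ) :=
    { toFun := fun g => Multiplicative.ofAdd fun m => z g m.1
      map_one' := by
        apply Multiplicative.toAdd.injective
        funext m
        change z 1 m.1 = 0
        have h9 := hzmul 1 1 m.1
        rw [mul_one] at h9
        omega
      map_mul' := fun a b => by
        apply Multiplicative.toAdd.injective
        funext m
        exact hzmul a b m.1 }
  have hf : Function.Injective f := by
    intro a b hab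
    apply hext
    rw [e0, e0]
    congr 1
    ext m
    by_cases hm : m ∈ S
    · have h9 : z a m = z b m := by
        have := congrArg (fun u : Multiplicative (S → ℤ) => Multiplicative.toAdd u ⟨m, hm⟩) hab
        exact this
      have h10 := hz a m
      rw [h9, hz b m] at h10
      have h11 : algebraMap ℤ ℚ N ≠ 0 := by
        rw [Ne, FaithfulSMul.algebraMap_eq_zero_iff]
        exact hN0
      exact (mul_left_cancel₀ h11 h10).symm
    · rw [hS a m hm, hS b m hm]
  -- subgroups of finitely generated free abelian groups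
  let e := MonoidHom.ofInjective hf
  have h12 : Group.FG f.range := by
    have h13 : (AddSubgroup.toIntSubmodule (Subgroup.toAddSubgroup' f.range)).FG :=
      IsNoetherian.noetherian _
    have h14 : AddGroup.FG ↥(Subgroup.toAddSubgroup' f.range) := by
      rw [AddGroup.fg_iff_addSubgroup_fg]
      exact (Submodule.fg_iff_addSubgroup_fg _).1 h13
    rw [Group.fg_iff_subgroup_fg, Subgroup.fg_iff_add_fg]
    exact (AddGroup.fg_iff_addSubgroup_fg _).1 h14
  exact Group.fg_of_surjective (f := e.symm.toMonoidHom) e.symm.surjective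

end Pool.Agent.U293.FX
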