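import Pool.Agent.U293.FX.STRA
import Pool.Agent.U722.FF.Li

set_option autoImplicit false
set_option linter.unusedSectionVars false

/-! Project FX: torsion-free groups of automorphisms of `ℤ[x, y]` without `ℤ ^ 2` are locally indicable. -/

namespace Pool.Agent.U293.FX

open U722.FF MvPolynomial Pool.Agent.U293.PA Pool.Agent.U293.FC

theorem notor_Z : NoTor (Multiplicative ℤ) := by
  intro g k hk h
  have h1 : (k : ℤ) * Multiplicative.toAdd g = 0 := by
    have h2 := congrArg Multiplicative.toAdd h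
    rw [toAdd_pow, toAdd_one, nsmul_eq_mul] at h2
    exact h2
  rcases mul_eq_zero.1 h1 with h2 | h2
  · exfalso
    have : k = 0 := by exact_mod_cast h2
    omega
  · exact Multiplicative.toAdd.injective h2

theorem et_of_cy {H : Type} [Group H] (h : Cy H) : ET H := by
  refine ⟨(FFr_of_Cy h).1, ?_, ?_⟩
  · rcases h with h | ⟨⟨e⟩⟩
    · exact fun g k _ _ => Subsingleton.elim _ _
    · exact NoTor_le e.toMonoidHom e.injective notor_Z
  · rcases h with h | ⟨⟨e⟩⟩
    · exact fun a b => Subsingleton.elim _ _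
    · intro a b
      apply e.injective
      rw [map_mul, map_mul, mul_comm]

/-- finitely generated torsion-free groups of automorphisms of `ℤ[x, y]` without `ℤ ^ 2` are indicable -/
theorem LIA (G : Type) [Group G] [Nontrivial G]
    (ρ : G →* (MvPolynomial (Fin 2) ℤ ≃ₐ[ℤ] MvPolynomial (Fin 2) ℤ)) (hρ : Function.Injective ρ)
    (hnt : NoTor G) (hfg : Group.FG G) (hz : ¬ HasZ2 G) : Ind G := by
  obtain ⟨f, hf, hDR⟩ := exists_emb
  refine Ind_of_tree G hfg (STRQ (fun H _ => VT H) (fun H _ => ET H)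
    (fun H _ h => ⟨(et_of_cy h).1, (et_of_cy h).2.1, Or.inl (et_of_cy h).2.2⟩)
    (fun H _ h => et_of_cy h) ?_ G (f.comp ρ) (hf.comp hρ) hnt hfg hz (fun g => hDR (ρ g)))
  intro H _ φ hφ h1 h2
  exact ⟨h2, h1, Or.inr (free_of_gl H φ hφ h1 h2).2⟩

end Pool.Agent.U293.FX
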