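import Pool.Agent.U293.FX.Stm

set_option autoImplicit false
set_option linter.unusedSectionVars false

/-! Project FX: the action on the tree. -/

namespace Pool.Agent.U293.FX

open U722.FF MvPolynomial Pool.Agent.U293.PA Pool.Agent.U293.FC

theorem tri_one {t : Au ℚ} (h1 : t ∈ affG (⊤ : Subfield ℚ)) (h2 : t ∈ triG (⊤ : Subfield ℚ)) :
    Tri 1 t := by
  obtain ⟨p, q, r, s, e, f, h3, h4⟩ := aff_top.1 h1
  obtain ⟨a, b, c, P, h5, h6⟩ := h2
  refine ⟨p, b, c, Polynomial.C q * Polynomial.X + Polynomial.C e,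
    Polynomial.natDegree_linear_le, ?_, h6⟩
  rw [h3]
  simp [MvPolynomial.algebraMap_eq]
  ring

theorem t_MAIN (hTRI : S_TRI) (hTRF : S_TRF) (hAF : S_AF) : S_MAIN := by
  intro G _ ρ hρ hnt hfg hDR
  obtain ⟨A, hA⟩ : ∃ A : Subgroup (Au ℚ), A = affG ⊤ ⊓ ⊤ := ⟨_, rfl⟩
  obtain ⟨B, hB⟩ : ∃ B : Subgroup (Au ℚ), B = triG ⊤ ⊓ ⊤ := ⟨_, rfl⟩
  have hpair : Pair A B := by
    rw [hA, hB]
    exact pair_R ⊤
  have htop : A ⊔ B = ⊤ := by
    rw [hA, hB, inf_top_eq, inf_top_eq]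
    exact tame_all ℚ
  obtain ⟨f, hf⟩ : ∃ f : G →* GG A B, ∀ g, ((f g : GG A B) : Au ℚ) = ρ g := ⟨
    { toFun := fun g => ⟨ρ g, by rw [htop]; exact Subgroup.mem_top _⟩
      map_one' := Subtype.ext (map_one ρ)
      map_mul' := fun x y => Subtype.ext (map_mul ρ x y) }, fun _ => rfl⟩
  let _ : MulAction G (Vt A B) := MulAction.compHom (Vt A B) f
  have hsm : ∀ (g : G) (v : Vt A B), g • v = f g • v := fun g v => rfl
  have hinj : ∀ H : Subgroup G, Function.Injective (ρ.comp H.subtype) := fun H =>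
    hρ.comp H.subtype_injective
  have hnt' : ∀ H : Subgroup G, NoTor H := fun H => NoTor_le H.subtype H.subtype_injective hnt
  have hfA : ∀ (g : G) (x : GG A B), g • vA A B x = vA A B x →
      (x : Au ℚ)⁻¹ * ρ g * (x : Au ℚ) ∈ affG (⊤ : Subfield ℚ) := by
    intro g x h
    rw [hsm] at h
    have h1 := hpair.hA (fixA h)
    rw [hf] at h1
    exact h1
  have hfB : ∀ (g : G) (x : GG A B), g • vB A B x = vB A B x →
      (x : Au ℚ)⁻¹ * ρ g * (x : Au ℚ) ∈ triG (⊤ : Subfield ℚ) := by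
    intro g x h
    rw [hsm] at h
    have h1 := hpair.hB (fixB h)
    rw [hf] at h1
    exact h1
  have hedge : ∀ (x : GG A B) (H : Subgroup G), (∀ g ∈ H, g • vA A B x = vA A B x) →
      (∀ g ∈ H, g • vB A B x = vB A B x) → TF H ∧ Group.FG H := by
    intro x H h1 h2
    exact hTRI H (ρ.comp H.subtype) (x : Au ℚ) 1 (hinj H) (hnt' H) (fun g => hDR g)
      (fun g => tri_one (hfA g x (h1 g g.2)) (hfB g x (h2 g g.2)))
  refine TT G (Vt A B) (tr A B) hfg (tr_tree hpair) (fun g u v h => tr_act (f g) u v h) ?_ ?_ ?_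
  · intro g u v huv h1 h2
    exact tr_inv (f g) u v huv ⟨h1, h2⟩
  · rintro u v ⟨x, ⟨rfl, rfl⟩ | ⟨rfl, rfl⟩⟩
    · exact hedge x _ (fun g hg => hg.1) (fun g hg => hg.2)
    · exact hedge x _ (fun g hg => hg.2) (fun g hg => hg.1)
  · intro v hfgv
    rcases cases_v v with ⟨x, rfl⟩ | ⟨x, rfl⟩
    · refine hAF _ (ρ.comp (Subgroup.subtype _)) (x : Au ℚ) (hinj _) (hnt' _) hfgv ?_
      intro g
      refine ⟨hDR g, ?_⟩
      change MulAut.conj (x : Au ℚ)⁻¹ (ρ g) ∈ affG (⊤ : Subfield ℚ)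
      rw [MulAut.conj_apply, inv_inv]
      exact hfA g x g.2
    · obtain ⟨d, hd⟩ := hTRF _ ((MulAut.conj (x : Au ℚ)⁻¹).toMonoidHom.comp
        (ρ.comp (Subgroup.subtype (MulAction.stabilizer G (vB A B x))))) hfgv (by
        intro g
        change MulAut.conj (x : Au ℚ)⁻¹ (ρ g) ∈ triG (⊤ : Subfield ℚ)
        rw [MulAut.conj_apply, inv_inv]
        exact hfB g x g.2)
      refine (hTRI _ (ρ.comp (Subgroup.subtype _)) (x : Au ℚ) d (hinj _) (hnt' _)
        (fun g => hDR g) ?_).1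
      intro g
      have h1 := hd g
      change Tri d (MulAut.conj (x : Au ℚ)⁻¹ (ρ g)) at h1
      rw [MulAut.conj_apply, inv_inv] at h1
      exact h1

end Pool.Agent.U293.FX
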