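import Mathlib

set_option autoImplicit false
set_option linter.unusedSectionVars false

/-! Project FX: relations `t u^a t⁻¹ = u^b` between automorphisms of `ℤ[x, y]`. -/

namespace Pool.Agent.U293.FX.NBS

open MvPolynomial

abbrev RZ : Type := MvPolynomial (Fin 2) ℤ
abbrev AZ : Type := RZ ≃ₐ[ℤ] RZ

variable {p : ℕ} [hp : Fact p.Prime]

/-- the polynomials whose value at the origin is divisible by `p` -/
noncomputable def II (p : ℕ) : Ideal RZ :=
  RingHom.ker (eval₂Hom (Int.castRingHom (ZMod p)) (fun _ : Fin 2 => (0 : ZMod p)))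

theorem p_mem : (p : RZ) ∈ II p := by
  unfold II
  rw [RingHom.mem_ker, map_natCast, ZMod.natCast_self]

theorem II_ne : II p ≠ ⊤ := RingHom.ker_ne_top _

theorem fin1 : Finite (RZ ⧸ II p) :=
  Finite.of_injective (RingHom.kerLift (eval₂Hom (Int.castRingHom (ZMod p))
    (fun _ : Fin 2 => (0 : ZMod p)))) (RingHom.kerLift_injective _)

theorem fin2 : Finite (RZ ⧸ (II p) ^ 2) := by
  have := fin1 (p := p)
  exact Ideal.finite_quotient_pow (IsNoetherian.noetherian _) 2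

theorem inf0 {r : RZ} (h : ∀ n, r ∈ (II p) ^ n) : r = 0 := by
  have h1 : r ∈ (⨅ n : ℕ, (II p) ^ n) := by
    rw [Ideal.mem_iInf]
    exact h
  rw [Ideal.iInf_pow_eq_bot_of_isDomain (II p) II_ne] at h1
  exact h1

/-- the congruence subgroups -/
noncomputable def NS (p n : ℕ) : Subgroup AZ where
  carrier := {g | ∀ r, g r - r ∈ (II p) ^ n}
  mul_mem' := by
    intro g h hg hh r
    have h1 : (g * h) r - r = (g (h r) - h r) + (h r - r) := by
      rw [AlgEquiv.mul_apply]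
      ring
    rw [h1]
    exact add_mem (hg _) (hh _)
  one_mem' := by
    intro r
    have h1 : (1 : AZ) r - r = 0 := sub_self r
    rw [h1]
    exact zero_mem _
  inv_mem' := by
    intro g hg r
    have h1 : g (g⁻¹ r) = r := g.apply_symm_apply r
    have h2 : g⁻¹ r - r = -(g (g⁻¹ r) - g⁻¹ r) := by
      rw [h1]
      ring
    rw [h2]
    exact neg_mem (hg _)

theorem mem_NS {n : ℕ} {g : AZ} : g ∈ NS p n ↔ ∀ r, g r - r ∈ (II p) ^ n := Iff.rfl

theorem NS_mono {n m : ℕ} (h : n ≤ m) : NS p m ≤ NS p n :=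
  fun _ hg r => Ideal.pow_le_pow_right h (hg r)

theorem step {g : AZ} (hg : g ∈ NS p 2) : ∀ (k : ℕ) (s : RZ), s ∈ (II p) ^ k →
    g s - s ∈ (II p) ^ (k + 1) := by
  intro k
  induction k with
  | zero =>
    intro s _
    exact Ideal.pow_le_pow_right (by omega) (hg s)
  | succ k ih =>
    intro s hs
    rw [pow_succ] at hs
    refine Submodule.mul_induction_on hs ?_ ?_
    · intro a ha b hb
      have h1 : g (a * b) - a * b = (g a - a) * g b + a * (g b - b) := by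
        rw [map_mul]
        ring
      rw [h1]
      have h2 : g b ∈ II p := by
        have h3 : g b = b + (g b - b) := by ring
        rw [h3]
        refine add_mem hb ?_
        have h4 := Ideal.pow_le_pow_right (I := II p) (show 1 ≤ 2 by omega) (hg b)
        rwa [pow_one] at h4
      refine add_mem ?_ ?_
      · rw [pow_succ (II p) (k + 1)]
        exact Ideal.mul_mem_mul (ih a ha) h2
      · have h5 : (II p) ^ (k + 1 + 1) = (II p) ^ k * (II p) ^ 2 := by rw [← pow_add]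
        rw [h5]
        exact Ideal.mul_mem_mul ha (hg b)
    · intro a b ha hb
      have h1 : g (a + b) - (a + b) = (g a - a) + (g b - b) := by
        rw [map_add]
        ring
      rw [h1]
      exact add_mem ha hb

theorem pow_ap (g : AZ) (n : ℕ) (r : RZ) : (g ^ (n + 1)) r = g ((g ^ n) r) := by
  rw [pow_succ', AlgEquiv.mul_apply]

/-- `p`-th powers -/
theorem stepp {g : AZ} (hg : g ∈ NS p 2) {k : ℕ} (hk : g ∈ NS p k) : g ^ p ∈ NS p (k + 1) := by
  intro r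
  have h1 : (g ^ p) r - r = ∑ j ∈ Finset.range p, (g ^ j) (g r - r) := by
    have h2 := Finset.sum_range_sub (fun j => (g ^ j) r) p
    have h3 : (g ^ 0) r = r := by rw [pow_zero]; rfl
    rw [h3] at h2
    rw [← h2]
    refine Finset.sum_congr rfl fun j _ => ?_
    rw [map_sub]
    congr 1
  have h4 : ∑ j ∈ Finset.range p, (g ^ j) (g r - r) = (p : RZ) * (g r - r) +
      ∑ j ∈ Finset.range p, ((g ^ j) (g r - r) - (g r - r)) := by
    rw [Finset.sum_sub_distrib, Finset.sum_const, Finset.card_range, nsmul_eq_mul]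
    ring
  rw [h1, h4]
  refine add_mem ?_ (Ideal.sum_mem _ fun j _ => ?_)
  · rw [pow_succ']
    exact Ideal.mul_mem_mul p_mem (hk r)
  · exact step (pow_mem hg j) k _ (hk r)

theorem exists_m {g : AZ} (hg : g ∈ NS p 2) (n : ℕ) : ∃ m : ℕ, g ^ (p ^ m) ∈ NS p n := by
  induction n with
  | zero => exact ⟨0, fun r => by rw [pow_zero, Ideal.one_eq_top]; exact Submodule.mem_top⟩
  | succ n ih =>
    obtain ⟨m, hm⟩ := ih
    refine ⟨m + 1, ?_⟩
    rw [pow_succ, pow_mul]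
    exact stepp (pow_mem hg _) hm

/-- conjugation -/
theorem conj_NS {t g : AZ} (ht : t ∈ NS p 2) {n : ℕ} (hg : g ∈ NS p n) : t * g * t⁻¹ ∈ NS p n := by
  intro r
  have h1 : t (t⁻¹ r) = r := t.apply_symm_apply r
  have h2 : (t * g * t⁻¹) r - r = t (g (t⁻¹ r) - t⁻¹ r) := by
    rw [AlgEquiv.mul_apply, AlgEquiv.mul_apply, map_sub, h1]
  rw [h2]
  have h3 : t (g (t⁻¹ r) - t⁻¹ r) = (g (t⁻¹ r) - t⁻¹ r) +
      (t (g (t⁻¹ r) - t⁻¹ r) - (g (t⁻¹ r) - t⁻¹ r)) := by ring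
  rw [h3]
  exact add_mem (hg _) (Ideal.pow_le_pow_right (Nat.le_succ n) (step ht n _ (hg _)))

/-- finite index -/
theorem exists_M (u : AZ) : ∃ M : ℕ, 0 < M ∧ u ^ M ∈ NS p 2 := by
  have hf := fin2 (p := p)
  have hF : Finite (RZ →ₐ[ℤ] (RZ ⧸ (II p) ^ 2)) := by
    refine Finite.of_injective (fun (φ : RZ →ₐ[ℤ] (RZ ⧸ (II p) ^ 2)) (i : Fin 2) => φ (X i)) ?_
    intro φ ψ h
    exact MvPolynomial.algHom_ext (fun i => congrFun h i)
  obtain ⟨i, j, hij, h⟩ := Finite.exists_ne_map_eq_of_infinite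
    (fun n : ℕ => (Ideal.Quotient.mkₐ ℤ ((II p) ^ 2)).comp ((u ^ n : AZ) : RZ →ₐ[ℤ] RZ))
  have key : ∀ i j : ℕ, i < j → ((Ideal.Quotient.mkₐ ℤ ((II p) ^ 2)).comp
      ((u ^ i : AZ) : RZ →ₐ[ℤ] RZ) = (Ideal.Quotient.mkₐ ℤ ((II p) ^ 2)).comp
      ((u ^ j : AZ) : RZ →ₐ[ℤ] RZ)) → ∃ M : ℕ, 0 < M ∧ u ^ M ∈ NS p 2 := by
    intro i j hij h
    refine ⟨j - i, by omega, fun r => ?_⟩
    obtain ⟨s, hs⟩ := (u ^ i).surjective r
    have h1 := congrArg (fun φ : RZ →ₐ[ℤ] (RZ ⧸ (II p) ^ 2) => φ s) h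
    have h2 : Ideal.Quotient.mk ((II p) ^ 2) ((u ^ i) s) =
      Ideal.Quotient.mk ((II p) ^ 2) ((u ^ j) s) := h1
    have h3 : (u ^ j) s = (u ^ (j - i)) r := by
      rw [← hs, ← AlgEquiv.mul_apply, ← pow_add, Nat.sub_add_cancel hij.le]
    rw [h3, hs] at h2
    exact Ideal.Quotient.eq.1 h2.symm
  rcases lt_or_gt_of_ne hij with h1 | h1
  · exact key i j h1 h
  · exact key j i h1 h.symm

/-- the main relation -/
theorem rel1 {t w : AZ} (ht : t ∈ NS p 2) (hw : w ∈ NS p 2) {a b : ℤ} (ha : ¬ (p : ℤ) ∣ a)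
    (h : t * w ^ a * t⁻¹ = w ^ ((p : ℤ) * b)) : w = 1 := by
  classical
  have key : ∀ n, w ∈ NS p n := by
    intro n
    have hex := exists_m hw n
    obtain ⟨e, he⟩ : ∃ e, e = Nat.find hex := ⟨_, rfl⟩
    have h1 : w ^ (p ^ e) ∈ NS p n := by rw [he]; exact Nat.find_spec hex
    cases e with
    | zero => rwa [pow_zero, pow_one] at h1
    | succ e =>
      exfalso
      refine Nat.find_min hex (m := e) (by omega) ?_
      obtain ⟨v, hv⟩ : ∃ v, v = w ^ (p ^ e) := ⟨_, rfl⟩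
      have h2 : v ^ (p : ℤ) ∈ NS p n := by
        rw [hv, zpow_natCast, ← pow_mul, ← pow_succ]
        exact h1
      have h3 : t * v ^ a * t⁻¹ = v ^ ((p : ℤ) * b) := by
        have h4 : ∀ c : ℤ, v ^ c = (w ^ c) ^ (p ^ e) := by
          intro c
          rw [hv, ← zpow_natCast, ← zpow_natCast, ← zpow_mul, ← zpow_mul, mul_comm]
        rw [h4, h4, ← h, conj_pow]
      have h5 : v ^ a ∈ NS p n := by
        have h6 : v ^ a = t⁻¹ * (v ^ ((p : ℤ) * b)) * t⁻¹⁻¹ := by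
          rw [← h3]
          group
        rw [h6]
        refine conj_NS (inv_mem ht) ?_
        rw [zpow_mul]
        exact zpow_mem h2 b
      have hcop : IsCoprime a (p : ℤ) := by
        have hpp : Prime (p : ℤ) := Nat.prime_iff_prime_int.1 hp.out
        exact ((Prime.coprime_iff_not_dvd hpp).2 ha).symm
      obtain ⟨x, y, hxy⟩ := hcop
      have h7 : v = (v ^ a) ^ x * (v ^ (p : ℤ)) ^ y := by
        rw [← zpow_mul, ← zpow_mul, ← zpow_add]
        have h8 : a * x + (p : ℤ) * y = 1 := by linear_combination hxy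
        rw [h8, zpow_one]
      rw [← hv, h7]
      exact mul_mem (zpow_mem h5 x) (zpow_mem h2 y)
  apply AlgEquiv.ext
  intro r
  have h9 : w r - r = 0 := inf0 (p := p) fun n => key n r
  exact sub_eq_zero.1 h9

theorem rel_pow {G : Type} [Group G] {t u : G} {a b : ℤ} (h : t * u ^ a * t⁻¹ = u ^ b) (n : ℕ) :
    t ^ n * u ^ (a ^ n) * (t ^ n)⁻¹ = u ^ (b ^ n) := by
  induction n with
  | zero => simp
  | succ n ih =>
    have h1 : t ^ (n + 1) * u ^ (a ^ (n + 1)) * (t ^ (n + 1))⁻¹ =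
        t ^ n * (t * (u ^ a) ^ (a ^ n) * t⁻¹) * (t ^ n)⁻¹ := by
      rw [← zpow_mul, ← pow_succ', pow_succ]
      group
    rw [h1, ← conj_zpow, h, ← zpow_mul, mul_comm, zpow_mul, ← conj_zpow, ih, ← zpow_mul, pow_succ]

/-- different valuations -/
theorem rel2 (p : ℕ) [hp : Fact p.Prime] {t u : AZ} (hu : ∀ k : ℕ, 0 < k → u ^ k ≠ 1) {a b : ℤ}
    {i : ℕ} (ha : ¬ (p : ℤ) ∣ a) (h : t * u ^ ((p : ℤ) ^ i * a) * t⁻¹ = u ^ ((p : ℤ) ^ (i + 1) * b)) :
    False := by
  obtain ⟨M, hM, hMu⟩ := exists_M (p := p) u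
  obtain ⟨c, hc, hct⟩ := exists_M (p := p) t
  have h1 := rel_pow h c
  obtain ⟨w, hw⟩ : ∃ w : AZ, w = (u ^ M) ^ (p ^ (i * c)) := ⟨_, rfl⟩
  have hw2 : ∀ z : ℤ, w ^ z = (u ^ ((p : ℤ) ^ (i * c) * z)) ^ M := by
    intro z
    rw [hw, ← pow_mul, ← zpow_natCast, ← zpow_natCast, ← zpow_mul, ← zpow_mul]
    congr 1
    push_cast
    ring
  have h2 : t ^ c * w ^ (a ^ c) * (t ^ c)⁻¹ = w ^ ((p : ℤ) * ((p : ℤ) ^ (c - 1) * b ^ c)) := by
    rw [hw2, hw2, ← conj_pow]
    congr 1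
    have h3 : (p : ℤ) ^ (i * c) * a ^ c = ((p : ℤ) ^ i * a) ^ c := by
      rw [mul_pow, ← pow_mul]
    have h4 : (p : ℤ) ^ (i * c) * ((p : ℤ) * ((p : ℤ) ^ (c - 1) * b ^ c)) =
        ((p : ℤ) ^ (i + 1) * b) ^ c := by
      obtain ⟨c', rfl⟩ : ∃ c', c = c' + 1 := ⟨c - 1, by omega⟩
      rw [Nat.add_sub_cancel, mul_pow, ← pow_mul]
      ring
    rw [h3, h4]
    exact h1
  have hac : ¬ (p : ℤ) ∣ a ^ c := by
    intro h5
    exact ha ((Nat.prime_iff_prime_int.1 hp.out).dvd_of_dvd_pow h5)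
  have h6 := rel1 hct (by rw [hw]; exact pow_mem hMu _) hac h2
  rw [hw, ← pow_mul] at h6
  exact hu _ (Nat.mul_pos hM (pow_pos hp.out.pos _)) h6

theorem split (p : ℕ) [hp : Fact p.Prime] {a : ℤ} (ha : a ≠ 0) :
    ∃ a' : ℤ, a = (p : ℤ) ^ (padicValInt p a) * a' ∧ ¬ (p : ℤ) ∣ a' := by
  obtain ⟨a', ha'⟩ := padicValInt_dvd (p := p) a
  refine ⟨a', ha', ?_⟩
  rintro ⟨c, rfl⟩
  have h1 : (p : ℤ) ^ (padicValInt p a + 1) ∣ a := by
    refine ⟨c, ?_⟩
    conv_lhs => rw [ha']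
    rw [pow_succ]
    ring
  rcases (padicValInt_dvd_iff (p := p) (padicValInt p a + 1) a).1 h1 with h2 | h2
  · exact ha h2
  · omega

/-- relations between automorphisms of `ℤ[x, y]` -/
theorem rel {t u : AZ} (hu : ∀ k : ℕ, 0 < k → u ^ k ≠ 1) {a b : ℤ} (ha : a ≠ 0) (hb : b ≠ 0)
    (h : t * u ^ a * t⁻¹ = u ^ b) : b = a ∨ b = -a := by
  by_contra hcon
  have h1 : ∀ (p : ℕ) [hp : Fact p.Prime], padicValInt p a = padicValInt p b := by
    intro p hp
    have key : ∀ (t : AZ) (a b : ℤ), a ≠ 0 → b ≠ 0 → t * u ^ a * t⁻¹ = u ^ b →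
        ¬ padicValInt p a < padicValInt p b := by
      intro t a b ha hb h hlt
      obtain ⟨a', h2, h3⟩ := split p ha
      obtain ⟨b', h4, -⟩ := split p hb
      obtain ⟨k, hk⟩ : ∃ k, padicValInt p b = padicValInt p a + 1 + k := ⟨_, (Nat.add_sub_of_le hlt).symm⟩
      rw [hk] at h4
      refine rel2 p (t := t) hu (i := padicValInt p a) (a := a') (b := (p : ℤ) ^ k * b') h3 ?_
      rw [← h2]
      have h5 : (p : ℤ) ^ (padicValInt p a + 1) * ((p : ℤ) ^ k * b') = b := by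
        conv_rhs => rw [h4]
        rw [pow_add (p : ℤ) (padicValInt p a + 1) k]
        ring
      rw [h5]
      exact h
    have h2 := key t a b ha hb h
    have h3 := key t⁻¹ b a hb ha (by
      rw [← h]
      group)
    omega
  apply hcon
  have h2 : a.natAbs = b.natAbs := by
    refine Nat.eq_of_factorization_eq (by omega) (by omega) fun p => ?_
    by_cases hp : p.Prime
    · have : Fact p.Prime := ⟨hp⟩
      have h3 := h1 p
      rw [Nat.factorization_def _ hp, Nat.factorization_def _ hp]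
      exact h3
    · rw [Nat.factorization_eq_zero_of_not_prime _ hp, Nat.factorization_eq_zero_of_not_prime _ hp]
  omega

end Pool.Agent.U293.FX.NBS
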