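import Pool.Agent.U293.FX.K1
import Pool.Agent.U293.FX.K3

set_option autoImplicit false
set_option linter.unusedSectionVars false

/-! Project FX: integral triangular automorphisms of bounded degree. -/

namespace Pool.Agent.U293.FX

open U722.FF MvPolynomial Pool.Agent.U293.PA Pool.Agent.U293.FC

/-- the homomorphism to the infinite dihedral group -/
theorem tri_data (G : Type) [Group G] (ρ : G →* Au ℚ) (x : Au ℚ) (d : ℕ)
    (hinj : Function.Injective ρ) (hnt : NoTor G) (hDR : ∀ g, ρ g ∈ DR (Dh ℤ ℚ))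
    (hT : ∀ g, Tri d (x⁻¹ * ρ g * x)) : ∃ f : G →* Equiv.Perm ℤ,
      (∀ g : G, ∃ ε c : ℤ, (ε = 1 ∨ ε = -1) ∧ ∀ m : ℤ, f g m = ε * m + c) ∧
      (∀ a b : G, f a = 1 → f b = 1 → a * b = b * a) ∧ Group.FG ↥f.ker := by
  choose a b c p hp h0 h1 using hT
  have hmul : ∀ g h : G, (x⁻¹ * ρ (g * h) * x) = (x⁻¹ * ρ g * x) * (x⁻¹ * ρ h * x) := by
    intro g h
    rw [map_mul]
    group
  have hsg : ∀ g, (a g = 1 ∨ a g = -1) ∧ (b g = 1 ∨ b g = -1) := by
    intro g
    have h0' := h0 g⁻¹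
    have h1' := h1 g⁻¹
    rw [map_inv] at h0' h1'
    exact sgn (hDR g) (hp g) (h0 g) (h1 g) (hp g⁻¹) h0' h1'
  have hlin : ∀ q e q' e' : ℚ, (C q * X 1 + C e : Rg ℚ) = C q' * X 1 + C e' → q = q' ∧ e = e' := by
    intro q e q' e' h
    have h2 := lin_ext (a := 0) (b := q) (e := e) (a' := 0) (b' := q') (e' := e') (by
      rw [C_0, zero_mul, zero_add, zero_add]
      exact h)
    exact ⟨h2.2.1, h2.2.2⟩
  have hbc : ∀ g h, b (g * h) = b h * b g ∧ c (g * h) = b h * c g + c h := by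
    intro g h
    apply hlin
    rw [← h1, hmul, AlgEquiv.mul_apply, h1, map_add, map_mul, gC, gC, h1]
    simp only [C_mul, C_add]
    ring
  obtain ⟨N, hN, hNY⟩ := exists_den (x (X 1))
  have hNQ : (algebraMap ℤ ℚ N) ≠ 0 := by
    rw [Ne, FaithfulSMul.algebraMap_eq_zero_iff]
    exact hN
  have hγ : ∀ g, ∃ z : ℤ, (z : ℚ) = algebraMap ℤ ℚ N * c g := by
    intro g
    have e1 : ρ g (x (X 1)) = C (b g) * x (X 1) + C (c g) := by
      rw [← conj_ap1, h1, map_add, map_mul, gC, gC]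
    have h2 : ρ g (C (algebraMap ℤ ℚ N) * x (X 1)) ∈ SR (Dh ℤ ℚ) := map_SR (hDR g).1 hNY
    rw [map_mul, gC, e1] at h2
    have h3 : C (algebraMap ℤ ℚ N) * (C (b g) * x (X 1)) ∈ SR (Dh ℤ ℚ) := by
      have h4 : C (algebraMap ℤ ℚ N) * (C (b g) * x (X 1)) =
          C (b g) * (C (algebraMap ℤ ℚ N) * x (X 1)) := by ring
      rw [h4]
      rcases (hsg g).2 with h5 | h5
      · rw [h5, C_1, one_mul]
        exact hNY
      · rw [h5, C_neg, C_1, neg_one_mul]
        exact neg_mem hNY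
    rw [mul_add] at h2
    have h6 := sub_mem h2 h3
    rw [add_sub_cancel_left, ← C_mul] at h6
    have h7 := mem_SR.1 h6 0
    rw [coeff_C, if_pos rfl] at h7
    obtain ⟨z, hz⟩ := h7
    exact ⟨z, hz⟩
  choose γ hγ using hγ
  have hβ : ∀ g, ∃ z : ℤ, (z : ℚ) = b g ∧ (z = 1 ∨ z = -1) := by
    intro g
    rcases (hsg g).2 with h5 | h5
    · exact ⟨1, by rw [h5]; norm_num, Or.inl rfl⟩
    · exact ⟨-1, by rw [h5]; norm_num, Or.inr rfl⟩
  choose β hβ hβ1 using hβ
  have hβ2 : ∀ g, β g * β g = 1 := by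
    intro g
    rcases hβ1 g with h | h
    · rw [h]; norm_num
    · rw [h]; norm_num
  have hβm : ∀ g h, β (g * h) = β h * β g := by
    intro g h
    have : (β (g * h) : ℚ) = ((β h * β g : ℤ) : ℚ) := by
      push_cast
      rw [hβ, hβ, hβ, (hbc g h).1]
    exact_mod_cast this
  have hγm : ∀ g h, γ (g * h) = β h * γ g + γ h := by
    intro g h
    have : (γ (g * h) : ℚ) = ((β h * γ g + γ h : ℤ) : ℚ) := by
      push_cast
      rw [hγ, hγ, hγ, hβ, (hbc g h).2]
      ring
    exact_mod_cast this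
  let F : G → Equiv.Perm ℤ := fun g =>
    { toFun := fun m => β g * (m - γ g)
      invFun := fun m => β g * m + γ g
      left_inv := fun m => by
        change β g * (β g * (m - γ g)) + γ g = m
        linear_combination (m - γ g) * hβ2 g
      right_inv := fun m => by
        change β g * (β g * m + γ g - γ g) = m
        linear_combination m * hβ2 g }
  have hF : ∀ g m, F g m = β g * (m - γ g) := fun g m => rfl
  let f : G →* Equiv.Perm ℤ := MonoidHom.mk' F (by
    intro g h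
    apply Equiv.ext
    intro m
    change F (g * h) m = F g (F h m)
    rw [hF, hF, hF, hβm, hγm]
    linear_combination (-(β g * γ g)) * hβ2 h)
  have hf : ∀ g m, f g m = β g * (m - γ g) := fun g m => rfl
  have hker : ∀ g, f g = 1 → b g = 1 ∧ c g = 0 := by
    intro g hg
    have h2 := congrArg (fun e : Equiv.Perm ℤ => e 0) hg
    have h3 := congrArg (fun e : Equiv.Perm ℤ => e 1) hg
    simp only [hf, Equiv.Perm.coe_one, id_eq] at h2 h3
    have h4 : β g = 1 := by linear_combination h3 - h2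
    rw [h4] at h2
    have h5 : γ g = 0 := by linear_combination -h2
    refine ⟨by rw [← hβ, h4]; norm_num, ?_⟩
    have h6 := hγ g
    rw [h5, Int.cast_zero] at h6
    exact (mul_eq_zero.1 h6.symm).resolve_left hNQ
  have hker2 : ∀ g, f g = 1 → (x⁻¹ * ρ g * x) (X 0) = X 0 + Polynomial.aeval (X 1) (p g) ∧
      (x⁻¹ * ρ g * x) (X 1) = X 1 := by
    intro g hg
    obtain ⟨h2, h3⟩ := hker g hg
    have h4 : (x⁻¹ * ρ g * x) (X 1) = X 1 := by
      rw [h1, h2, h3, C_1, one_mul, C_0, add_zero]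
    refine ⟨?_, h4⟩
    rcases (hsg g).1 with h5 | h5
    · rw [h0, h5, C_1, one_mul]
    · exfalso
      have h6 : (x⁻¹ * ρ g * x) * (x⁻¹ * ρ g * x) = 1 := by
        refine ext_of ?_ ?_
        · rw [AlgEquiv.mul_apply, h0, map_add, map_mul, gC, h0, g_aeval, h4, h5]
          change _ = (X 0 : Rg ℚ)
          rw [C_neg, C_1]
          ring
        · rw [AlgEquiv.mul_apply, h4, h4]
          rfl
      have h7 : ρ (g ^ 2) = 1 := by
        rw [map_pow]
        have h8 : ρ g ^ 2 = x * ((x⁻¹ * ρ g * x) * (x⁻¹ * ρ g * x)) * x⁻¹ := by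
          rw [pow_two]
          group
        rw [h8, h6]
        group
      have h9 : g ^ 2 = 1 := hinj (by rw [h7, map_one])
      have h10 := hnt g 2 two_pos h9
      have h11 := h0 g
      rw [h10, map_one] at h11
      have h12 : (x⁻¹ * 1 * x : Au ℚ) = 1 := by group
      rw [h12] at h11
      have h13 : (C 1 * X 0 + Polynomial.aeval (X 1 : Rg ℚ) (0 : Polynomial ℚ)) =
          C (a 1) * X 0 + Polynomial.aeval (X 1) (p 1) := by
        rw [← h11, map_zero, add_zero, C_1, one_mul]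
        rfl
      have h14 := congrArg (fun P : Rg ℚ => P.coeff (Finsupp.single 0 1)) h13
      simp only [coeff0] at h14
      rw [h10] at h5
      rw [h5] at h14
      norm_num at h14
  obtain ⟨h2, h3⟩ := ker3 f.ker (ρ.comp f.ker.subtype) x d (hinj.comp f.ker.subtype_injective)
    (fun g => hDR g) (fun g => ⟨p g, hp g, (hker2 g ((MonoidHom.mem_ker).1 g.2)).1,
      (hker2 g ((MonoidHom.mem_ker).1 g.2)).2⟩)
  refine ⟨f, (fun g => ⟨β g, -(β g * γ g), hβ1 g, fun m => ?_⟩), ?_, h3⟩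
  · rw [hf]
    ring
  · intro u v hu hv
    exact congrArg Subtype.val (h2 ⟨u, (MonoidHom.mem_ker).2 hu⟩ ⟨v, (MonoidHom.mem_ker).2 hv⟩)

end Pool.Agent.U293.FX
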