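import Pool.Agent.U722.FF.Fin
import Pool.Agent.U293.FD.Aut

set_option autoImplicit false
set_option linter.unusedSectionVars false

/-! Project FX: torsion-free subgroups of the automorphism group of `ℤ[x, y]`: statements. -/

namespace Pool.Agent.U293.FX

open U722.FF MvPolynomial Pool.Agent.U293.PA Pool.Agent.U293.FC

/-- groups with an abelian subgroup of index two -/
def S_VA : Prop := ∀ (G : Type) [Group G] (ε : G →* ℤˣ), NoTor G →
  (∀ a b : G, ε a = 1 → ε b = 1 → a * b = b * a) → Group.FG ↥ε.ker → TF G ∧ Group.FG G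

/-- groups over the infinite dihedral group -/
def S_DI : Prop := ∀ (G : Type) [Group G] (f : G →* Equiv.Perm ℤ), NoTor G →
  (∀ g : G, ∃ ε c : ℤ, (ε = 1 ∨ ε = -1) ∧ ∀ m : ℤ, f g m = ε * m + c) →
  (∀ a b : G, f a = 1 → f b = 1 → a * b = b * a) → Group.FG ↥f.ker → TF G ∧ Group.FG G

/-- groups over subgroups of `GL_2(ℤ)` -/
def S_FA : Prop := ∀ (G : Type) [Group G] (φ : G →* Matrix.GeneralLinearGroup (Fin 2) ℤ),
  NoTor G → Group.FG G →
  (∃ (n : ℕ) (v : ↥φ.ker →* Multiplicative (Fin n → ℤ)), Function.Injective v) →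
  (∀ (g : G) (n : ℕ), 0 < n → φ g ^ n = 1 → (φ g).1.det = 1 → φ g = 1) → TF G

/-- `t` is triangular of degree at most `d` -/
def Tri (d : ℕ) (t : Au ℚ) : Prop := ∃ (a b c : ℚ) (p : Polynomial ℚ), p.natDegree ≤ d ∧
  t (X 0) = C a * X 0 + Polynomial.aeval (X 1) p ∧ t (X 1) = C b * X 1 + C c

/-- groups of integral triangular automorphisms of bounded degree -/
def S_TRI : Prop := ∀ (G : Type) [Group G] (ρ : G →* Au ℚ) (x : Au ℚ) (d : ℕ),
  Function.Injective ρ → NoTor G → (∀ g, ρ g ∈ DR (Dh ℤ ℚ)) → (∀ g, Tri d (x⁻¹ * ρ g * x)) →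
  TF G ∧ Group.FG G

/-- finitely generated groups of triangular automorphisms have bounded degree -/
def S_TRF : Prop := ∀ (G : Type) [Group G] (τ : G →* Au ℚ), Group.FG G →
  (∀ g, τ g ∈ triG (⊤ : Subfield ℚ)) → ∃ d, ∀ g, Tri d (τ g)

/-- integral affine automorphisms -/
def S_AF : Prop := ∀ (G : Type) [Group G] (ρ : G →* Au ℚ) (x : Au ℚ), Function.Injective ρ →
  NoTor G → Group.FG G → (∀ g, ρ g ∈ SG ℤ x) → TF G

/-- integral automorphisms -/
def S_MAIN : Prop := ∀ (G : Type) [Group G] (ρ : G →* Au ℚ), Function.Injective ρ → NoTor G →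
  Group.FG G → (∀ g, ρ g ∈ DR (Dh ℤ ℚ)) → TF G

end Pool.Agent.U293.FX
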