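import Pool.Agent.U722.FF.Hyp
import Pool.Agent.U293.FX.Stm

set_option autoImplicit false
set_option linter.unusedSectionVars false

/-! Project FX: groups without `ℤ ^ 2`. -/

namespace Pool.Agent.U293.FX

open U722.FF

section

variable {G : Type} [Group G]

theorem zpow_ne (hnt : NoTor G) {c : G} (hc : c ≠ 1) {n : ℤ} (h : c ^ n = 1) : n = 0 := by
  by_contra hn
  apply hc
  refine hnt c n.natAbs (by omega) ?_
  rcases Int.natAbs_eq n with h1 | h1
  · rw [h1, zpow_natCast] at h
    exact h
  · rw [h1, zpow_neg, zpow_natCast, inv_eq_one] at h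
    exact h

theorem zpow_inj (hnt : NoTor G) {c : G} (hc : c ≠ 1) {n m : ℤ} (h : c ^ n = c ^ m) : n = m := by
  have h1 : c ^ (n - m) = 1 := by rw [zpow_sub, h, mul_inv_cancel]
  have := zpow_ne hnt hc h1
  omega

/-- cyclic normal subgroups of index two -/
theorem comm2 (hnt : NoTor G) (ε : G →* ℤˣ) (c : G) (hc : ∀ k, ε k = 1 → ∃ n : ℤ, k = c ^ n)
    (hεc : ε c = 1) : ∀ a b : G, a * b = b * a := by
  have key : ∀ t : G, ε t ≠ 1 → t * c = c * t := by
    intro t ht
    have hsq : ∀ u : ℤˣ, u * u = 1 := Int.units_mul_self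
    obtain ⟨n, hn⟩ := hc (t * t) (by rw [map_mul]; exact hsq _)
    obtain ⟨m, hm⟩ := hc (t * c * t⁻¹) (by
      rw [map_mul, map_mul, map_inv, hεc, mul_one, mul_inv_cancel])
    have hn0 : n ≠ 0 := by
      rintro rfl
      rw [zpow_zero] at hn
      apply ht
      rw [hnt t 2 two_pos (by rw [pow_two]; exact hn), map_one]
    have hc1 : c ≠ 1 := by
      rintro rfl
      rw [one_zpow] at hn
      apply ht
      rw [hnt t 2 two_pos (by rw [pow_two]; exact hn), map_one]
    have h1 : c ^ (m * n) = c ^ n := by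
      rw [zpow_mul, ← hm, conj_zpow, ← hn]
      group
    have h2 := zpow_inj hnt hc1 h1
    have h3 : m = 1 := by
      have h4 : (m - 1) * n = 0 := by linear_combination h2
      rcases mul_eq_zero.1 h4 with h5 | h5
      · omega
      · exact absurd h5 hn0
    rw [h3, zpow_one] at hm
    calc t * c = t * c * t⁻¹ * t := by group
      _ = c * t := by rw [hm]
  have hcen : ∀ t : G, t * c = c * t := by
    intro t
    by_cases ht : ε t = 1
    · obtain ⟨n, rfl⟩ := hc t ht
      rw [← zpow_add_one, ← zpow_one_add, add_comm]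
    · exact key t ht
  have hcen2 : ∀ (t : G) (n : ℤ), t * c ^ n = c ^ n * t := by
    intro t n
    exact ((show Commute t c from hcen t).zpow_right n)
  intro a b
  by_cases ha : ε a = 1
  · obtain ⟨n, rfl⟩ := hc a ha
    exact (hcen2 b n).symm
  · by_cases hb : ε b = 1
    · obtain ⟨n, rfl⟩ := hc b hb
      exact hcen2 a n
    · have h1 : ε (a⁻¹ * b) = 1 := by
        have ha' := (Int.units_eq_one_or (ε a)).resolve_left ha
        have hb' := (Int.units_eq_one_or (ε b)).resolve_left hb
        rw [map_mul, map_inv, ha', hb']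
        rfl
      obtain ⟨n, hn⟩ := hc _ h1
      have h2 : b = a * c ^ n := by rw [← hn, mul_inv_cancel_left]
      rw [h2, hcen2 a n, ← mul_assoc, hcen2 a n, mul_assoc]

/-- without `ℤ ^ 2`, elements have powers in infinite cyclic normal subgroups -/
theorem powK (hnt : NoTor G) (hz : ¬ HasZ2 G) (c : G) (hc1 : c ≠ 1)
    (hn : ∀ g : G, ∃ m : ℤ, g * c * g⁻¹ = c ^ m) (g : G) : ∃ (n : ℕ) (j : ℤ), 0 < n ∧ g ^ n = c ^ j := by
  by_contra hcon
  push Not at hcon
  apply hz
  obtain ⟨m, hm⟩ := hn g
  obtain ⟨m', hm'⟩ := hn g⁻¹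
  have h1 : c ^ (m * m') = c ^ (1 : ℤ) := by
    have h2 : g * (g⁻¹ * c * g⁻¹⁻¹) * g⁻¹ = c := by group
    rw [hm', ← conj_zpow, hm, ← zpow_mul] at h2
    rw [h2, zpow_one]
  have h3 := zpow_inj hnt hc1 h1
  have h4 : m = 1 ∨ m = -1 := Int.eq_one_or_neg_one_of_mul_eq_one h3
  have h5 : Commute (g ^ 2) c := by
    have h6 : g ^ 2 * c * (g ^ 2)⁻¹ = c := by
      have h7 : g ^ 2 * c * (g ^ 2)⁻¹ = g * (g * c * g⁻¹) * g⁻¹ := by
        rw [pow_two]
        group
      rw [h7, hm, ← conj_zpow, hm, ← zpow_mul]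
      rcases h4 with h | h
      · rw [h]
        simp
      · rw [h]
        simp
    change g ^ 2 * c = c * g ^ 2
    calc g ^ 2 * c = g ^ 2 * c * (g ^ 2)⁻¹ * g ^ 2 := by group
      _ = c * g ^ 2 := by rw [h6]
  have hpow : ∀ (n : ℤ) (j : ℤ), (g ^ 2) ^ n = c ^ j → n = 0 := by
    intro n j hnj
    by_contra hn0
    have h8 : g ^ (2 * n) = c ^ j := by
      rw [← hnj, ← zpow_natCast g 2, ← zpow_mul]
      norm_num
    rcases Int.natAbs_eq (2 * n) with h9 | h9
    · apply hcon (2 * n).natAbs j (by omega)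
      rw [← h8, ← zpow_natCast, ← h9]
    · apply hcon (2 * n).natAbs (-j) (by omega)
      rw [zpow_neg, ← h8, ← zpow_neg, ← zpow_natCast]
      congr 1
      omega
  let f : Multiplicative (ℤ × ℤ) →* G :=
    { toFun := fun p => c ^ (Multiplicative.toAdd p).1 * (g ^ 2) ^ (Multiplicative.toAdd p).2
      map_one' := by
        change c ^ (0 : ℤ) * (g ^ 2) ^ (0 : ℤ) = 1
        rw [zpow_zero, zpow_zero, one_mul]
      map_mul' := fun p q => by
        change c ^ ((Multiplicative.toAdd p).1 + (Multiplicative.toAdd q).1) *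
          (g ^ 2) ^ ((Multiplicative.toAdd p).2 + (Multiplicative.toAdd q).2) = _
        rw [zpow_add, zpow_add]
        have h10 := (h5.zpow_zpow (Multiplicative.toAdd p).2 (Multiplicative.toAdd q).1)
        have h11 : (g ^ 2) ^ (Multiplicative.toAdd p).2 * c ^ (Multiplicative.toAdd q).1 =
          c ^ (Multiplicative.toAdd q).1 * (g ^ 2) ^ (Multiplicative.toAdd p).2 := h10
        calc _ = c ^ (Multiplicative.toAdd p).1 * (c ^ (Multiplicative.toAdd q).1 *
              (g ^ 2) ^ (Multiplicative.toAdd p).2) * (g ^ 2) ^ (Multiplicative.toAdd q).2 := by group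
          _ = _ := by
            rw [← h11]
            group }
  refine ⟨f, ?_⟩
  rw [injective_iff_map_eq_one]
  intro p hp
  have h12 : c ^ (Multiplicative.toAdd p).1 * (g ^ 2) ^ (Multiplicative.toAdd p).2 = 1 := hp
  have h13 : (g ^ 2) ^ (Multiplicative.toAdd p).2 = c ^ (-(Multiplicative.toAdd p).1) := by
    rw [zpow_neg]
    exact eq_inv_of_mul_eq_one_right h12
  have h14 := hpow _ _ h13
  rw [h14, zpow_zero, mul_one] at h12
  have h15 := zpow_ne hnt hc1 h12
  apply Multiplicative.toAdd.injective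
  exact Prod.ext h15 h14

/-- abelian kernels -/
theorem ker_cyc (hnt : NoTor G) (hz : ¬ HasZ2 G) (K : Subgroup G) (hK : ∀ a b : K, a * b = b * a)
    (hfg : Group.FG K) : ∃ c : G, c ∈ K ∧ ∀ k ∈ K, ∃ n : ℤ, k = c ^ n := by
  rcases CYC K hK hfg (NoTor_le K.subtype K.subtype_injective hnt)
    (fun h => hz (HasZ2_le K.subtype K.subtype_injective h)) with h | ⟨⟨e⟩⟩
  · refine ⟨1, one_mem _, fun k hk => ⟨0, ?_⟩⟩
    rw [zpow_zero]
    exact congrArg Subtype.val (Subsingleton.elim (⟨k, hk⟩ : K) 1)
  · refine ⟨(e.symm (Multiplicative.ofAdd 1) : K), Subtype.property _, fun k hk => ?_⟩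
    refine ⟨Multiplicative.toAdd (e ⟨k, hk⟩), ?_⟩
    have h1 : e.symm (Multiplicative.ofAdd 1) ^ (Multiplicative.toAdd (e ⟨k, hk⟩)) = ⟨k, hk⟩ := by
      apply e.injective
      rw [map_zpow, e.apply_symm_apply, ← ofAdd_zsmul, smul_eq_mul, mul_one, ofAdd_toAdd]
    rw [← Subgroup.coe_zpow, h1]

/-- extensions of subgroups of the infinite dihedral group, without `ℤ ^ 2` -/
theorem di_ab (hnt : NoTor G) (hz : ¬ HasZ2 G) (f : G →* Equiv.Perm ℤ)
    (hf : ∀ g : G, ∃ ε c : ℤ, (ε = 1 ∨ ε = -1) ∧ ∀ m : ℤ, f g m = ε * m + c)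
    (hk : ∀ a b : G, f a = 1 → f b = 1 → a * b = b * a) (hfg : Group.FG ↥f.ker) :
    ∀ a b : G, a * b = b * a := by
  obtain ⟨c, hcK, hc⟩ := ker_cyc hnt hz f.ker (fun a b => Subtype.ext (hk a b
    ((MonoidHom.mem_ker).1 a.2) ((MonoidHom.mem_ker).1 b.2))) hfg
  choose s t hs hst using hf
  have hfc : f c = 1 := (MonoidHom.mem_ker).1 hcK
  have hs1 : ∀ g, f g 1 - f g 0 = s g := by
    intro g
    rw [hst, hst]
    ring
  by_cases hc1 : c = 1
  · -- the kernel is trivial
    have hinj : ∀ g, f g = 1 → g = 1 := by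
      intro g hg
      obtain ⟨n, hn⟩ := hc g ((MonoidHom.mem_ker).2 hg)
      rw [hn, hc1, one_zpow]
    have hs2 : ∀ g, s g = 1 := by
      intro g
      rcases hs g with h | h
      · exact h
      · exfalso
        have h1 : f (g ^ 2) = 1 := by
          apply Equiv.ext
          intro m
          rw [map_pow, pow_two]
          change f g (f g m) = m
          rw [hst g (f g m), hst g m, h]
          ring
        have h2 := hnt g 2 two_pos (hinj _ h1)
        rw [h2] at h
        have h3 := hs1 1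
        rw [map_one f, h] at h3
        change (1 : ℤ) - 0 = -1 at h3
        omega
    intro a b
    have h4 : a * b * (b * a)⁻¹ = 1 := by
      apply hinj
      rw [map_mul, map_inv, mul_inv_eq_one]
      apply Equiv.ext
      intro m
      rw [map_mul, map_mul]
      change f a (f b m) = f b (f a m)
      rw [hst a (f b m), hst b m, hst b (f a m), hst a m, hs2, hs2]
      ring
    exact mul_inv_eq_one.1 h4
  · -- the sign is a homomorphism
    have hmul : ∀ a b, s (a * b) = s a * s b := by
      intro a b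
      rw [← hs1, map_mul]
      change f a (f b 1) - f a (f b 0) = s a * s b
      rw [hst a (f b 1), hst a (f b 0), hst b 1, hst b 0]
      ring
    have hu : ∀ g, IsUnit (s g) := fun g => Int.isUnit_iff.2 (hs g)
    let ε : G →* ℤˣ := MonoidHom.mk' (fun g => (hu g).unit) (by
      intro a b
      apply Units.ext
      change s (a * b) = s a * s b
      exact hmul a b)
    have hε : ∀ g, ((ε g : ℤˣ) : ℤ) = s g := fun g => rfl
    have hnorm : ∀ g : G, ∃ m : ℤ, g * c * g⁻¹ = c ^ m := by
      intro g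
      refine hc _ ((MonoidHom.mem_ker).2 ?_)
      rw [map_mul, map_mul, hfc, mul_one, map_inv, mul_inv_cancel]
    refine comm2 hnt ε c ?_ ?_
    · intro k hk1
      refine hc k ((MonoidHom.mem_ker).2 ?_)
      obtain ⟨n, j, hn, hnj⟩ := powK hnt hz c hc1 hnorm k
      have h5 : f k ^ n = 1 := by rw [← map_pow, hnj, map_zpow, hfc, one_zpow]
      have h6 : s k = 1 := by
        rw [← hε, hk1]
        rfl
      have h7 : ∀ (i : ℕ) (m : ℤ), (f k ^ i) m = m + i * t k := by
        intro i
        induction i with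
        | zero => intro m; simp
        | succ i ih =>
          intro m
          rw [pow_succ]
          change (f k ^ i) (f k m) = _
          rw [ih, hst, h6]
          push_cast
          ring
      have h8 := h7 n 0
      rw [h5] at h8
      change (0 : ℤ) = 0 + n * t k at h8
      rw [zero_add] at h8
      have h9 : t k = 0 := by
        rcases mul_eq_zero.1 h8.symm with h | h
        · exfalso
          have : n = 0 := by exact_mod_cast h
          omega
        · exact h
      apply Equiv.ext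
      intro m
      rw [hst, h6, h9]
      change 1 * m + 0 = m
      ring
    · apply Units.ext
      rw [hε, ← hs1, hfc]
      rfl

/-- groups over subgroups of `GL_2(ℤ)`, without `ℤ ^ 2` -/
theorem fa_ab (hnt : NoTor G) (hz : ¬ HasZ2 G) (φ : G →* Matrix.GeneralLinearGroup (Fin 2) ℤ)
    (hv : ∃ (n : ℕ) (v : ↥φ.ker →* Multiplicative (Fin n → ℤ)), Function.Injective v)
    (hφ : ∀ (g : G) (n : ℕ), 0 < n → φ g ^ n = 1 → (φ g).1.det = 1 → φ g = 1) :
    (∀ a b : G, a * b = b * a) ∨ Function.Injective φ := by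
  obtain ⟨n, v, hv⟩ := hv
  have hKc : ∀ a b : φ.ker, a * b = b * a := by
    intro a b
    apply hv
    rw [map_mul, map_mul, mul_comm]
  have hKfg : Group.FG φ.ker := by
    have h12 : Group.FG v.range := by
      have h13 : (AddSubgroup.toIntSubmodule (Subgroup.toAddSubgroup' v.range)).FG :=
        IsNoetherian.noetherian _
      have h14 : AddGroup.FG ↥(Subgroup.toAddSubgroup' v.range) := by
        rw [AddGroup.fg_iff_addSubgroup_fg]
        exact (Submodule.fg_iff_addSubgroup_fg _).1 h13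
      rw [Group.fg_iff_subgroup_fg, Subgroup.fg_iff_add_fg]
      exact (AddGroup.fg_iff_addSubgroup_fg _).1 h14
    exact Group.fg_of_surjective (f := (MonoidHom.ofInjective hv).symm.toMonoidHom)
      (MonoidHom.ofInjective hv).symm.surjective
  obtain ⟨c, hcK, hc⟩ := ker_cyc hnt hz φ.ker hKc hKfg
  have hfc : φ c = 1 := (MonoidHom.mem_ker).1 hcK
  by_cases hc1 : c = 1
  · right
    rw [injective_iff_map_eq_one]
    intro g hg
    obtain ⟨n, hn⟩ := hc g ((MonoidHom.mem_ker).2 hg)
    rw [hn, hc1, one_zpow]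
  · left
    have hnorm : ∀ g : G, ∃ m : ℤ, g * c * g⁻¹ = c ^ m := by
      intro g
      refine hc _ ((MonoidHom.mem_ker).2 ?_)
      rw [map_mul, map_mul, hfc, mul_one, map_inv, mul_inv_cancel]
    refine comm2 hnt (Matrix.GeneralLinearGroup.det.comp φ) c ?_ ?_
    · intro k hk1
      refine hc k ((MonoidHom.mem_ker).2 ?_)
      obtain ⟨n, j, hn, hnj⟩ := powK hnt hz c hc1 hnorm k
      have h5 : φ k ^ n = 1 := by rw [← map_pow, hnj, map_zpow, hfc, one_zpow]
      refine hφ k n hn h5 ?_
      have h6 := congrArg (fun u : ℤˣ => (u : ℤ)) hk1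
      exact h6
    · rw [MonoidHom.comp_apply, hfc, map_one]

end

end Pool.Agent.U293.FX
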