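import Pool.Agent.U293.FX.Fin
import Pool.Agent.U293.FX.Z2
import Pool.Agent.U293.FX.AFD
import Pool.Agent.U293.FX.TRD

set_option autoImplicit false
set_option linter.unusedSectionVars false

/-! Project FX: the structure of finitely generated torsion-free groups of automorphisms of `ℤ[x, y]`
without `ℤ ^ 2`. -/

namespace Pool.Agent.U293.FX

open U722.FF MvPolynomial Pool.Agent.U293.PA Pool.Agent.U293.FC

/-- integral triangular automorphisms of bounded degree, without `ℤ ^ 2` -/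
theorem tri_ab (G : Type) [Group G] (ρ : G →* Au ℚ) (x : Au ℚ) (d : ℕ)
    (hinj : Function.Injective ρ) (hnt : NoTor G) (hz : ¬ HasZ2 G) (hDR : ∀ g, ρ g ∈ DR (Dh ℤ ℚ))
    (hT : ∀ g, Tri d (x⁻¹ * ρ g * x)) : Cy G ∧ Group.FG G := by
  obtain ⟨f, h1, h2, h3⟩ := tri_data G ρ x d hinj hnt hDR hT
  have h4 := (TRI G ρ x d hinj hnt hDR hT).2
  have h5 := di_ab hnt hz f h1 h2 h3
  exact ⟨CYC G h5 h4 hnt hz, h4⟩

/-- finitely generated free groups -/
theorem free_of_gl (G : Type) [Group G] (φ : G →* Matrix.GeneralLinearGroup (Fin 2) ℤ)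
    (hφ : Function.Injective φ) (hnt : NoTor G) (hfg : Group.FG G) : FFr G := by
  refine ⟨hfg, ?_⟩
  obtain ⟨V, E, iV, iE, T, s, t, hT, hO, hV, hE, hP, hQ⟩ := GZ_tree FAR G φ hφ hnt hfg
    (fun H _ => Subsingleton H) (fun H _ => Subsingleton H) (fun H _ h => h) (fun H _ h => h)
  exact FREE G V E T s t hT hO hP

/-- integral affine automorphisms, without `ℤ ^ 2` -/
theorem aff_fr (G : Type) [Group G] (ρ : G →* Au ℚ) (x : Au ℚ) (hinj : Function.Injective ρ)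
    (hnt : NoTor G) (hz : ¬ HasZ2 G) (hfg : Group.FG G) (hSG : ∀ g, ρ g ∈ SG ℤ x) :
    Cy G ∨ ∃ φ : G →* Matrix.GeneralLinearGroup (Fin 2) ℤ, Function.Injective φ := by
  obtain ⟨φ, h1, h2⟩ := af_data G ρ x hinj hnt hSG
  rcases fa_ab hnt hz φ h1 h2 with h3 | h3
  · exact Or.inl (CYC G h3 hfg hnt hz)
  · exact Or.inr ⟨φ, h3⟩

theorem STRQ (P Q : ∀ (H : Type) [Group H], Prop) (hP1 : ∀ (H : Type) [Group H], Cy H → P H)
    (hQ1 : ∀ (H : Type) [Group H], Cy H → Q H)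
    (hP2 : ∀ (H : Type) [Group H] (φ : H →* Matrix.GeneralLinearGroup (Fin 2) ℤ),
      Function.Injective φ → NoTor H → Group.FG H → P H)
    (G : Type) [Group G] (ρ : G →* Au ℚ) (hρ : Function.Injective ρ) (hnt : NoTor G)
    (hfg : Group.FG G) (hz : ¬ HasZ2 G) (hDR : ∀ g, ρ g ∈ DR (Dh ℤ ℚ)) : OnTree G P Q := by
  obtain ⟨A, hA⟩ : ∃ A : Subgroup (Au ℚ), A = affG ⊤ ⊓ ⊤ := ⟨_, rfl⟩
  obtain ⟨B, hB⟩ : ∃ B : Subgroup (Au ℚ), B = triG ⊤ ⊓ ⊤ := ⟨_, rfl⟩
  have hpair : Pair A B := by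
    rw [hA, hB]
    exact pair_R ⊤
  have htop : A ⊔ B = ⊤ := by
    rw [hA, hB, inf_top_eq, inf_top_eq]
    exact tame_all ℚ
  obtain ⟨f, hf⟩ : ∃ f : G →* GG A B, ∀ g, ((f g : GG A B) : Au ℚ) = ρ g := ⟨
    { toFun := fun g => ⟨ρ g, by rw [htop]; exact Subgroup.mem_top _⟩
      map_one' := Subtype.ext (map_one ρ)
      map_mul' := fun x y => Subtype.ext (map_mul ρ x y) }, fun _ => rfl⟩
  let _ : MulAction G (Vt A B) := MulAction.compHom (Vt A B) f
  have hsm : ∀ (g : G) (v : Vt A B), g • v = f g • v := fun g v => rfl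
  have hinj : ∀ H : Subgroup G, Function.Injective (ρ.comp H.subtype) := fun H =>
    hρ.comp H.subtype_injective
  have hnt' : ∀ H : Subgroup G, NoTor H := fun H => NoTor_le H.subtype H.subtype_injective hnt
  have hz' : ∀ H : Subgroup G, ¬ HasZ2 H := fun H h => hz (HasZ2_le H.subtype H.subtype_injective h)
  have hfA : ∀ (g : G) (x : GG A B), g • vA A B x = vA A B x →
      (x : Au ℚ)⁻¹ * ρ g * (x : Au ℚ) ∈ affG (⊤ : Subfield ℚ) := by
    intro g x h
    rw [hsm] at h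
    have h1 := hpair.hA (fixA h)
    rw [hf] at h1
    exact h1
  have hfB : ∀ (g : G) (x : GG A B), g • vB A B x = vB A B x →
      (x : Au ℚ)⁻¹ * ρ g * (x : Au ℚ) ∈ triG (⊤ : Subfield ℚ) := by
    intro g x h
    rw [hsm] at h
    have h1 := hpair.hB (fixB h)
    rw [hf] at h1
    exact h1
  have hedge : ∀ (x : GG A B) (H : Subgroup G), (∀ g ∈ H, g • vA A B x = vA A B x) →
      (∀ g ∈ H, g • vB A B x = vB A B x) → Cy H ∧ Group.FG H := by
    intro x H h1 h2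
    exact tri_ab H (ρ.comp H.subtype) (x : Au ℚ) 1 (hinj H) (hnt' H) (hz' H) (fun g => hDR g)
      (fun g => tri_one (hfA g x (h1 g g.2)) (hfB g x (h2 g g.2)))
  refine CO G (Vt A B) (tr A B) P Q hfg (tr_tree hpair)
    (fun g u v h => tr_act (f g) u v h) ?_ ?_ ?_
  · intro g u v huv h1 h2
    exact tr_inv (f g) u v huv ⟨h1, h2⟩
  · rintro u v ⟨x, ⟨rfl, rfl⟩ | ⟨rfl, rfl⟩⟩
    · obtain ⟨h3, h4⟩ := hedge x (MulAction.stabilizer G (vA A B x) ⊓
        MulAction.stabilizer G (vB A B x)) (fun g hg => hg.1) (fun g hg => hg.2)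
      exact ⟨hQ1 _ h3, h4⟩
    · obtain ⟨h3, h4⟩ := hedge x (MulAction.stabilizer G (vB A B x) ⊓
        MulAction.stabilizer G (vA A B x)) (fun g hg => hg.2) (fun g hg => hg.1)
      exact ⟨hQ1 _ h3, h4⟩
  · intro v hfgv
    rcases cases_v v with ⟨x, rfl⟩ | ⟨x, rfl⟩
    · rcases aff_fr _ (ρ.comp (Subgroup.subtype _)) (x : Au ℚ) (hinj _) (hnt' _) (hz' _) hfgv (by
        intro g
        refine ⟨hDR g, ?_⟩
        change MulAut.conj (x : Au ℚ)⁻¹ (ρ g) ∈ affG (⊤ : Subfield ℚ)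
        rw [MulAut.conj_apply, inv_inv]
        exact hfA g x g.2) with h3 | ⟨φ, h3⟩
      · exact hP1 _ h3
      · exact hP2 _ φ h3 (hnt' _) hfgv
    · obtain ⟨d, hd⟩ := TRF _ ((MulAut.conj (x : Au ℚ)⁻¹).toMonoidHom.comp
        (ρ.comp (Subgroup.subtype (MulAction.stabilizer G (vB A B x))))) hfgv (by
        intro g
        change MulAut.conj (x : Au ℚ)⁻¹ (ρ g) ∈ triG (⊤ : Subfield ℚ)
        rw [MulAut.conj_apply, inv_inv]
        exact hfB g x g.2)
      refine hP1 _ (tri_ab _ (ρ.comp (Subgroup.subtype _)) (x : Au ℚ) d (hinj _) (hnt' _)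
        (hz' _) (fun g => hDR g) ?_).1
      intro g
      have h1 := hd g
      change Tri d (MulAut.conj (x : Au ℚ)⁻¹ (ρ g)) at h1
      rw [MulAut.conj_apply, inv_inv] at h1
      exact h1

/-- the structure theorem: finitely generated free stabilizers of the vertices, trivial or infinite
cyclic stabilizers of the edges -/
theorem STRA (G : Type) [Group G]
    (ρ : G →* (MvPolynomial (Fin 2) ℤ ≃ₐ[ℤ] MvPolynomial (Fin 2) ℤ)) (hρ : Function.Injective ρ)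
    (hnt : NoTor G) (hfg : Group.FG G) (hz : ¬ HasZ2 G) :
    OnTree G (fun H _ => FFr H) (fun H _ => Cy H) := by
  obtain ⟨f, hf, hDR⟩ := exists_emb
  exact STRQ (fun H _ => FFr H) (fun H _ => Cy H) (fun H _ h => FFr_of_Cy h) (fun H _ h => h)
    (fun H _ φ hφ h1 h2 => free_of_gl H φ hφ h1 h2) G (f.comp ρ) (hf.comp hρ) hnt hfg hz
    (fun g => hDR (ρ g))

/-- resolutions of length two -/
theorem TFnA (G : Type) [Group G]
    (ρ : G →* (MvPolynomial (Fin 2) ℤ ≃ₐ[ℤ] MvPolynomial (Fin 2) ℤ)) (hρ : Function.Injective ρ)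
    (hnt : NoTor G) (hfg : Group.FG G) (hz : ¬ HasZ2 G) : TFn G 2 := by
  obtain ⟨f, hf, hDR⟩ := exists_emb
  refine LEN G (STRQ (fun H _ => TFn H 1) (fun H _ => TFn H 1) (fun H _ h => CYC1 H h)
    (fun H _ h => CYC1 H h) ?_ G (f.comp ρ) (hf.comp hρ) hnt hfg hz (fun g => hDR (ρ g)))
  intro H _ φ hφ h1 h2
  exact FREE1 H (GZ_tree FAR H φ hφ h1 h2 (fun H _ => Subsingleton H) (fun H _ => Subsingleton H)
    (fun H _ h => h) (fun H _ h => h))

end Pool.Agent.U293.FX
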